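import Mathlib
import Pool.Agent.H70.SS.CM2

/-!
# Likelihood ratios of randomly shifted Gaussian vectors as elements of `L²`
-/

set_option autoImplicit false

open MeasureTheory ProbabilityTheory
open scoped BigOperators RealInnerProductSpace

namespace Pool.Agent.H47.LV

open Pool.Agent.H70.SS (gam integral_exp_lin integrable_exp_lin integrable_exp_abs cameron_martin)

section One

variable {σ : Type*} [Fintype σ]

/-- the likelihood ratio of a shift -/
noncomputable def Lam (s z : σ → ℝ) : ℝ := Real.exp (∑ c, z c * s c - (∑ c, s c ^ 2) / 2)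

theorem Lam_pos (s z : σ → ℝ) : 0 < Lam s z := Real.exp_pos _

theorem Lam_le {s : σ → ℝ} {B : ℝ} (hB : ∀ c, |s c| ≤ B) (z : σ → ℝ) :
    Lam s z ≤ Real.exp (B * ∑ c, |z c|) := by
  refine Real.exp_le_exp.2 ?_
  have e1 : ∑ c, z c * s c ≤ B * ∑ c, |z c| := by
    rw [Finset.mul_sum]
    refine Finset.sum_le_sum fun c _ => ?_
    calc z c * s c ≤ |z c * s c| := le_abs_self _
      _ = |s c| * |z c| := by rw [abs_mul, mul_comm]
      _ ≤ B * |z c| := mul_le_mul_of_nonneg_right (hB c) (abs_nonneg _)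
  have e2 : 0 ≤ ∑ c, s c ^ 2 := Finset.sum_nonneg fun c _ => sq_nonneg _
  linarith

theorem measurable_Lam (s : σ → ℝ) : Measurable (Lam s) := by
  unfold Lam
  fun_prop

theorem memLp_exp_abs (B : ℝ) :
    MemLp (fun z : σ → ℝ => Real.exp (B * ∑ c, |z c|)) 2 (gam σ) := by
  have hm : Measurable fun z : σ → ℝ => Real.exp (B * ∑ c, |z c|) := by
    refine Real.measurable_exp.comp (Measurable.const_mul ?_ B)
    exact Finset.measurable_sum _ fun c _ => (measurable_pi_apply c).abs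
  rw [memLp_two_iff_integrable_sq hm.aestronglyMeasurable]
  refine (integrable_exp_abs (ι := σ) (2 * B)).congr (ae_of_all _ fun z => ?_)
  show Real.exp (2 * B * ∑ c, |z c|) = Real.exp (B * ∑ c, |z c|) ^ 2
  rw [← Real.exp_nat_mul]
  congr 1
  push_cast
  ring

theorem memLp_of_le {F : (σ → ℝ) → ℝ} (hF : AEStronglyMeasurable F (gam σ)) (B : ℝ)
    (h : ∀ z, |F z| ≤ Real.exp (B * ∑ c, |z c|)) : MemLp F 2 (gam σ) :=
  (memLp_exp_abs B).mono hF (ae_of_all _ fun z => by
    rw [Real.norm_eq_abs, Real.norm_eq_abs, abs_of_pos (Real.exp_pos _)]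
    exact h z)

theorem integrable_Lam (s : σ → ℝ) : Integrable (Lam s) (gam σ) := by
  have h := (integrable_exp_lin s).mul_const (Real.exp (-((∑ c, s c ^ 2) / 2)))
  refine h.congr (ae_of_all _ fun z => ?_)
  show Real.exp (∑ l, z l * s l) * Real.exp (-((∑ c, s c ^ 2) / 2)) = Lam s z
  unfold Lam
  rw [← Real.exp_add]
  congr 1

theorem map_gam (s : σ → ℝ) : (gam σ).map (fun z => s + z) =
    (gam σ).withDensity fun z => ENNReal.ofReal (Lam s z) := by
  have hm : Measurable fun z : σ → ℝ => s + z := measurable_const_add s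
  ext A hA
  rw [Measure.map_apply hm hA, withDensity_apply _ hA,
    ← ofReal_integral_eq_lintegral_ofReal (integrable_Lam s).integrableOn
      (ae_of_all _ fun z => (Lam_pos s z).le)]
  have h := cameron_martin s (Set.indicator A fun _ => (1 : ℝ)) (measurable_const.indicator hA)
    (fun z => Set.indicator_nonneg (fun _ _ => zero_le_one) z)
    (fun z => Set.indicator_le_self' (fun _ _ => zero_le_one) z)
  have h1 : ∫ z, Set.indicator A (fun _ => (1 : ℝ)) (s + z) ∂(gam σ) =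
      (gam σ).real ((fun z => s + z) ⁻¹' A) := by
    rw [← integral_indicator_one (hm hA)]
    rfl
  have h2 : ∫ z, Set.indicator A (fun _ => (1 : ℝ)) z *
      Real.exp (∑ c, z c * s c - (∑ c, s c ^ 2) / 2) ∂(gam σ) =
      ∫ z in A, Lam s z ∂(gam σ) := by
    rw [← integral_indicator hA]
    refine integral_congr_ae (ae_of_all _ fun z => ?_)
    by_cases hz : z ∈ A
    · simp [hz, Lam]
    · simp [hz]
  rw [h1, h2] at h
  rw [← h, Measure.real, ENNReal.ofReal_toReal (measure_ne_top _ _)]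

theorem cm_integral (s : σ → ℝ) {F : (σ → ℝ) → ℝ} (hF : Measurable F) :
    ∫ z, F (s + z) ∂(gam σ) = ∫ z, F z * Lam s z ∂(gam σ) := by
  have h3 : ∫ z, F (s + z) ∂(gam σ) = ∫ z, F z ∂((gam σ).map fun z => s + z) := by
    rw [integral_map (by fun_prop) hF.aestronglyMeasurable]
  rw [h3, map_gam s, integral_withDensity_eq_integral_toReal_smul
    (measurable_Lam s).ennreal_ofReal (ae_of_all _ fun _ => ENNReal.ofReal_lt_top)]
  refine integral_congr_ae (ae_of_all _ fun z => ?_)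
  simp only [smul_eq_mul]
  rw [ENNReal.toReal_ofReal (Lam_pos s z).le, mul_comm]

theorem cm_integrable (s : σ → ℝ) {F : (σ → ℝ) → ℝ} (hF : Measurable F)
    (hi : Integrable (fun z => F z * Lam s z) (gam σ)) :
    Integrable (fun z => F (s + z)) (gam σ) := by
  have h1 : Integrable F ((gam σ).map fun z => s + z) := by
    rw [map_gam s, integrable_withDensity_iff_integrable_smul'
      (measurable_Lam s).ennreal_ofReal (ae_of_all _ fun _ => ENNReal.ofReal_lt_top)]
    refine hi.congr (ae_of_all _ fun z => ?_)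
    simp only [smul_eq_mul]
    rw [ENNReal.toReal_ofReal (Lam_pos s z).le, mul_comm]
  exact (integrable_map_measure hF.aestronglyMeasurable
    (measurable_const_add s).aemeasurable).1 h1

theorem integral_Lam_mul (s t : σ → ℝ) :
    ∫ z, Lam s z * Lam t z ∂(gam σ) = Real.exp (∑ c, s c * t c) := by
  have e3 : ∀ z, Lam s z * Lam t z =
      Real.exp (∑ c, z c * (s c + t c)) *
        Real.exp (-((∑ c, s c ^ 2) / 2 + (∑ c, t c ^ 2) / 2)) := by
    intro z
    unfold Lam
    rw [← Real.exp_add, ← Real.exp_add]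
    congr 1
    have e4 : ∑ c, z c * (s c + t c) = ∑ c, z c * s c + ∑ c, z c * t c := by
      rw [← Finset.sum_add_distrib]
      exact Finset.sum_congr rfl fun c _ => by ring
    rw [e4]
    ring
  simp only [e3]
  rw [integral_mul_const, integral_exp_lin, ← Real.exp_add]
  congr 1
  have e5 : ∑ c, (s c + t c) ^ 2 =
      ∑ c, s c ^ 2 + ∑ c, t c ^ 2 + 2 * ∑ c, s c * t c := by
    rw [Finset.mul_sum, ← Finset.sum_add_distrib, ← Finset.sum_add_distrib]
    exact Finset.sum_congr rfl fun c _ => by ring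
  rw [e5]
  ring

end One

section Two

variable {σ Ω : Type*} [Fintype σ] [MeasurableSpace Ω] (P : Measure Ω) [IsProbabilityMeasure P]

/-- the likelihood ratio of a random shift -/
noncomputable def Phi (P : Measure Ω) (s : Ω → σ → ℝ) (z : σ → ℝ) : ℝ := ∫ ω, Lam (s ω) z ∂P

theorem measurable_Lam2 {s : Ω → σ → ℝ} (hs : Measurable s) :
    Measurable (Function.uncurry fun ω z => Lam (s ω) z) := by
  have hsc : ∀ c, Measurable fun ω => s ω c := fun c => (measurable_pi_apply c).comp hs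
  have e1 : Measurable fun p : Ω × (σ → ℝ) =>
      ∑ c, p.2 c * s p.1 c - (∑ c, s p.1 c ^ 2) / 2 := by
    refine (Finset.measurable_sum _ fun c _ => ?_).sub
      ((Finset.measurable_sum _ fun c _ => ?_).div_const 2)
    · exact ((measurable_pi_apply c).comp measurable_snd).mul ((hsc c).comp measurable_fst)
    · exact ((hsc c).comp measurable_fst).pow_const 2
  exact Real.measurable_exp.comp e1

theorem Phi_sm {s : Ω → σ → ℝ} (hs : Measurable s) : StronglyMeasurable (Phi P s) :=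
  (measurable_Lam2 hs).stronglyMeasurable.integral_prod_left

variable {P}

theorem Phi_nonneg (s : Ω → σ → ℝ) (z : σ → ℝ) : 0 ≤ Phi P s z :=
  integral_nonneg fun ω => (Lam_pos _ _).le

theorem Phi_le {s : Ω → σ → ℝ} (hs : Measurable s) {B : ℝ} (hB : ∀ ω c, |s ω c| ≤ B)
    (z : σ → ℝ) : Phi P s z ≤ Real.exp (B * ∑ c, |z c|) := by
  have hi : Integrable (fun ω => Lam (s ω) z) P := by
    refine (integrable_const (Real.exp (B * ∑ c, |z c|))).mono'
      ((measurable_Lam2 hs).comp (measurable_id.prodMk measurable_const)).aestronglyMeasurable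
      (ae_of_all _ fun ω => ?_)
    rw [Real.norm_eq_abs, abs_of_pos (Lam_pos _ _)]
    exact Lam_le (hB ω) z
  have e1 : Phi P s z ≤ ∫ _ω, Real.exp (B * ∑ c, |z c|) ∂P :=
    integral_mono hi (integrable_const _) fun ω => Lam_le (hB ω) z
  simpa using e1

theorem memLp_Phi {s : Ω → σ → ℝ} (hs : Measurable s) {B : ℝ} (hB : ∀ ω c, |s ω c| ≤ B) :
    MemLp (Phi P s) 2 (gam σ) :=
  memLp_of_le (Phi_sm P hs).aestronglyMeasurable B fun z => by
    rw [abs_of_nonneg (Phi_nonneg s z)]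
    exact Phi_le hs hB z

theorem memLp_Lam {s : σ → ℝ} {B : ℝ} (hB : ∀ c, |s c| ≤ B) : MemLp (Lam s) 2 (gam σ) :=
  memLp_of_le (measurable_Lam s).aestronglyMeasurable B fun z => by
    rw [abs_of_pos (Lam_pos s z)]
    exact Lam_le hB z

theorem integrable_FLam {s : Ω → σ → ℝ} (hs : Measurable s) {B : ℝ} (hB : ∀ ω c, |s ω c| ≤ B)
    {F : (σ → ℝ) → ℝ} (hF : Measurable F) (hF2 : MemLp F 2 (gam σ)) :
    Integrable (Function.uncurry fun ω z => F z * Lam (s ω) z) (P.prod (gam σ)) := by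
  have h0 : Integrable (fun z => |F z| * Real.exp (B * ∑ c, |z c|)) (gam σ) :=
    hF2.abs.integrable_mul (memLp_exp_abs B)
  have h1 : Integrable (fun p : Ω × (σ → ℝ) => |F p.2| * Real.exp (B * ∑ c, |p.2 c|))
      (P.prod (gam σ)) := h0.comp_snd P
  refine h1.mono' ((hF.comp measurable_snd).mul (measurable_Lam2 hs)).aestronglyMeasurable
    (ae_of_all _ fun p => ?_)
  show ‖F p.2 * Lam (s p.1) p.2‖ ≤ |F p.2| * Real.exp (B * ∑ c, |p.2 c|)
  rw [Real.norm_eq_abs, abs_mul, abs_of_pos (Lam_pos _ _)]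
  exact mul_le_mul_of_nonneg_left (Lam_le (hB p.1) p.2) (abs_nonneg _)

theorem swap_F {s : Ω → σ → ℝ} (hs : Measurable s) {B : ℝ} (hB : ∀ ω c, |s ω c| ≤ B)
    {F : (σ → ℝ) → ℝ} (hF : Measurable F) (hF2 : MemLp F 2 (gam σ)) :
    ∫ z, F z * Phi P s z ∂(gam σ) = ∫ ω, ∫ z, F z * Lam (s ω) z ∂(gam σ) ∂P := by
  rw [integral_integral_swap (integrable_FLam hs hB hF hF2)]
  refine integral_congr_ae (ae_of_all _ fun z => ?_)
  exact (integral_const_mul (F z) _).symm

theorem inner_F {s : Ω → σ → ℝ} (hs : Measurable s) {B : ℝ} (hB : ∀ ω c, |s ω c| ≤ B)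
    {F : (σ → ℝ) → ℝ} (hF : Measurable F) (hF2 : MemLp F 2 (gam σ)) :
    ∫ z, F z * Phi P s z ∂(gam σ) = ∫ ω, ∫ z, F (s ω + z) ∂(gam σ) ∂P := by
  rw [swap_F hs hB hF hF2]
  exact integral_congr_ae (ae_of_all _ fun ω => (cm_integral (s ω) hF).symm)

theorem integrable_shift {s : Ω → σ → ℝ} (hs : Measurable s) {B : ℝ} (hB : ∀ ω c, |s ω c| ≤ B)
    {F : (σ → ℝ) → ℝ} (hF : Measurable F) (hF2 : MemLp F 2 (gam σ)) :
    Integrable (fun p : Ω × (σ → ℝ) => F (s p.1 + p.2)) (P.prod (gam σ)) := by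
  have hm : Measurable fun p : Ω × (σ → ℝ) => F (s p.1 + p.2) :=
    hF.comp ((hs.comp measurable_fst).add measurable_snd)
  have hmul : ∀ ω, Integrable (fun z => F z * Lam (s ω) z) (gam σ) := fun ω =>
    hF2.integrable_mul (memLp_Lam (hB ω))
  rw [integrable_prod_iff hm.aestronglyMeasurable]
  refine ⟨ae_of_all _ fun ω => cm_integrable (s ω) hF (hmul ω), ?_⟩
  have h0 : Integrable (fun z => |F z| * Real.exp (B * ∑ c, |z c|)) (gam σ) :=
    hF2.abs.integrable_mul (memLp_exp_abs B)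
  refine Integrable.of_bound (C := ∫ z, |F z| * Real.exp (B * ∑ c, |z c|) ∂(gam σ))
    hm.stronglyMeasurable.norm.integral_prod_right'.aestronglyMeasurable
    (ae_of_all _ fun ω => ?_)
  have hFa : Measurable fun z => |F z| := hF.abs
  have h1 : ∫ z, ‖F (s ω + z)‖ ∂(gam σ) = ∫ z, |F z| * Lam (s ω) z ∂(gam σ) :=
    cm_integral (s ω) hFa
  show ‖∫ z, ‖F (s ω + z)‖ ∂(gam σ)‖ ≤ _
  rw [h1, Real.norm_eq_abs, abs_of_nonneg (integral_nonneg fun z =>
    mul_nonneg (abs_nonneg _) (Lam_pos _ _).le)]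
  exact integral_mono (hF2.abs.integrable_mul (memLp_Lam (hB ω))) h0 fun z =>
    mul_le_mul_of_nonneg_left (Lam_le (hB ω) z) (abs_nonneg _)

theorem inner_Phi {s t : Ω → σ → ℝ} (hs : Measurable s) (ht : Measurable t) {B : ℝ}
    (hsB : ∀ ω c, |s ω c| ≤ B) (htB : ∀ ω c, |t ω c| ≤ B) :
    ∫ z, Phi P s z * Phi P t z ∂(gam σ) =
      ∫ ω, ∫ ω', Real.exp (∑ c, s ω c * t ω' c) ∂P ∂P := by
  have h1 : ∀ z, Phi P s z * Phi P t z = Phi P t z * Phi P s z := fun z => mul_comm _ _
  simp_rw [h1]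
  rw [swap_F hs hsB (Phi_sm P ht).measurable (memLp_Phi ht htB)]
  refine integral_congr_ae (ae_of_all _ fun ω => ?_)
  show ∫ z, Phi P t z * Lam (s ω) z ∂(gam σ) = _
  have h2 : ∀ z, Phi P t z * Lam (s ω) z = Lam (s ω) z * Phi P t z := fun z => mul_comm _ _
  simp_rw [h2]
  rw [swap_F ht htB (measurable_Lam _) (memLp_Lam (hsB ω))]
  exact integral_congr_ae (ae_of_all _ fun ω' => integral_Lam_mul _ _)

theorem inner_toLp {f g : (σ → ℝ) → ℝ} (hf : MemLp f 2 (gam σ)) (hg : MemLp g 2 (gam σ)) :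
    ⟪hf.toLp f, hg.toLp g⟫ = ∫ z, f z * g z ∂(gam σ) := by
  rw [L2.inner_def]
  refine integral_congr_ae ?_
  filter_upwards [hf.coeFn_toLp, hg.coeFn_toLp] with z h1 h2
  rw [h1, h2]
  simp [mul_comm]

end Two

end Pool.Agent.H47.LV
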