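import Mathlib

/-!
# An orthogonal decomposition over subsets of a finite set

`mob M V = ∑_{K ⊆ V} (-1)^|V \ K| M K`.
-/

set_option autoImplicit false

open Finset
open scoped RealInnerProductSpace

namespace Pool.Agent.H47.LV

variable {α : Type*} [DecidableEq α]

section Mob

variable {E : Type*} [AddCommGroup E] [Module ℝ E]

/-- the Möbius transform of a function on finite sets -/
def mob (M : Finset α → E) (V : Finset α) : E :=
  ∑ K ∈ V.powerset, ((-1 : ℝ) ^ (V \ K).card) • M K

theorem mob_empty (M : Finset α → E) : mob M ∅ = M ∅ := by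
  simp [mob]

theorem mob_congr {M M' : Finset α → E} {V : Finset α} (h : ∀ K ⊆ V, M K = M' K) :
    mob M V = mob M' V :=
  sum_congr rfl fun K hK => by rw [h K (mem_powerset.1 hK)]

theorem mob_insert (M : Finset α → E) {i : α} {V : Finset α} (hi : i ∉ V) :
    mob M (insert i V) = mob (fun K => M (insert i K)) V - mob M V := by
  unfold mob
  rw [sum_powerset_insert hi, ← sum_sub_distrib, ← sum_add_distrib]
  refine sum_congr rfl fun K hK => ?_
  have hK' := mem_powerset.1 hK
  have hiK : i ∉ K := fun h => hi (hK' h)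
  have e1 : (insert i V \ K).card = (V \ K).card + 1 := by
    rw [insert_sdiff_of_notMem _ hiK, card_insert_of_notMem]
    intro h
    exact hi (mem_sdiff.1 h).1
  have e2 : insert i V \ insert i K = V \ K := by
    ext x
    simp only [mem_sdiff, mem_insert, not_or]
    constructor
    · rintro ⟨h1 | h1, h2, h3⟩
      · exact absurd h1 h2
      · exact ⟨h1, h3⟩
    · rintro ⟨h1, h2⟩
      refine ⟨Or.inr h1, ?_, h2⟩
      rintro rfl
      exact hi h1
  rw [e1, e2, pow_succ, mul_neg_one, neg_smul]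
  abel

theorem mob_eq_zero {M : Finset α → E} {i : α} {V : Finset α} (hi : i ∈ V)
    (h : ∀ K, M (insert i K) = M K) : mob M V = 0 := by
  rw [← insert_erase hi, mob_insert M (notMem_erase i V)]
  simp only [h, sub_self]

theorem mob_single {M : Finset α → E} {V : Finset α} (h : ∀ K ⊆ V, K ≠ V → M K = 0) :
    mob M V = M V := by
  unfold mob
  rw [sum_eq_single V]
  · simp
  · intro K hK hne
    rw [h K (mem_powerset.1 hK) hne, smul_zero]
  · intro h
    exact absurd (mem_powerset_self V) h

theorem sum_mob (U : Finset α) : ∀ M : Finset α → E, ∑ V ∈ U.powerset, mob M V = M U := by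
  induction U using Finset.induction_on with
  | empty => intro M; simp [mob]
  | insert i U hi ih =>
    intro M
    rw [sum_powerset_insert hi, ← sum_add_distrib]
    have h1 : ∀ V ∈ U.powerset, mob M V + mob M (insert i V) =
        mob (fun K => M (insert i K)) V := by
      intro V hV
      rw [mob_insert M fun h => hi (mem_powerset.1 hV h)]
      abel
    rw [sum_congr rfl h1]
    exact ih fun K => M (insert i K)

end Mob

theorem mob_pow (x : ℝ) (V : Finset α) :
    mob (fun K : Finset α => x ^ K.card) V = (x - 1) ^ V.card := by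
  induction V using Finset.induction_on with
  | empty => simp [mob]
  | insert i V hi ih =>
    rw [mob_insert _ hi, card_insert_of_notMem hi, pow_succ, ← ih]
    have h1 : mob (fun K : Finset α => x ^ (insert i K).card) V =
        mob (fun K : Finset α => x * x ^ K.card) V := by
      refine mob_congr fun K hK => ?_
      rw [card_insert_of_notMem fun h => hi (hK h), pow_succ, mul_comm]
    rw [h1]
    have h2 : mob (fun K : Finset α => x * x ^ K.card) V =
        x * mob (fun K : Finset α => x ^ K.card) V := by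
      unfold mob
      rw [mul_sum]
      exact sum_congr rfl fun K _ => by simp only [smul_eq_mul]; ring
    rw [h2]
    ring

section Hilb

variable {E : Type*} [NormedAddCommGroup E] [InnerProductSpace ℝ E]

theorem inner_mob (x : E) (G : Finset α → E) (V : Finset α) :
    ⟪x, mob G V⟫ = mob (fun K => ⟪x, G K⟫) V := by
  unfold mob
  rw [inner_sum]
  exact sum_congr rfl fun K _ => by rw [real_inner_smul_right, smul_eq_mul]

/-- the inner products of the components -/
theorem inner_mob_mob {G : Finset α → E} {M : Finset α → ℝ}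
    (hG : ∀ K K', ⟪G K, G K'⟫ = M (K ∩ K')) (V V' : Finset α) :
    ⟪mob G V, mob G V'⟫ = if V = V' then mob M V else 0 := by
  have h1 : ∀ K' V, ¬ V ⊆ K' → ⟪G K', mob G V⟫ = 0 := by
    intro K' V h
    obtain ⟨i, hi, hi'⟩ := not_subset.1 h
    rw [inner_mob]
    refine mob_eq_zero hi fun K => ?_
    rw [hG, hG]
    congr 1
    ext x
    simp only [mem_inter, mem_insert]
    constructor
    · rintro ⟨a, rfl | b⟩
      · exact absurd a hi'
      · exact ⟨a, b⟩
    · rintro ⟨a, b⟩
      exact ⟨a, Or.inr b⟩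
  have h2 : ∀ V V', ¬ V' ⊆ V → ⟪mob G V, mob G V'⟫ = 0 := by
    intro V V' h
    rw [real_inner_comm, inner_mob]
    have h3 : mob (fun K => ⟪mob G V', G K⟫) V = mob (fun _ : Finset α => (0 : ℝ)) V := by
      refine mob_congr fun K hK => ?_
      rw [real_inner_comm]
      exact h1 K V' fun h4 => h (h4.trans hK)
    rw [h3]
    simp [mob]
  split_ifs with hV
  · subst hV
    rw [real_inner_comm, inner_mob]
    have h3 : mob (fun K => ⟪mob G V, G K⟫) V = ⟪mob G V, G V⟫ := by
      refine mob_single fun K hK hne => ?_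
      rw [real_inner_comm]
      exact h1 K V fun h5 => hne (Subset.antisymm hK h5)
    rw [h3, real_inner_comm, inner_mob]
    refine mob_congr fun K hK => ?_
    rw [hG, inter_eq_right.2 hK]
  · by_cases h3 : V' ⊆ V
    · rw [real_inner_comm]
      exact h2 V' V fun h4 => hV (Subset.antisymm h4 h3)
    · exact h2 V V' h3

/-- the Möbius transform of a Gram function is nonnegative -/
theorem mob_nonneg {G : Finset α → E} {M : Finset α → ℝ}
    (hG : ∀ K K', ⟪G K, G K'⟫ = M (K ∩ K')) (V : Finset α) : 0 ≤ mob M V := by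
  have h := inner_mob_mob hG V V
  rw [if_pos rfl] at h
  rw [← h]
  exact real_inner_self_nonneg

/-- **The inequality for sums of local vectors.** -/
theorem hilb [Fintype α] {G : Finset α → E} {M : Finset α → ℝ}
    (hG : ∀ K K', ⟪G K, G K'⟫ = M (K ∩ K')) (hM : M ∅ = 1) (p : Finset α → Prop)
    [DecidablePred p] (hp : ∀ S V, V ⊆ S → p S → p V) {ι : Type*} (s : Finset ι) (F : ι → E)
    (S : ι → Finset α) (hS : ∀ i ∈ s, p (S i))
    (hFG : ∀ i ∈ s, ∀ K, ⟪F i, G K⟫ = ⟪F i, G (K ∩ S i)⟫) :
    (⟪∑ i ∈ s, F i, G univ⟫ - ⟪∑ i ∈ s, F i, G ∅⟫) ^ 2 ≤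
      (⟪∑ i ∈ s, F i, ∑ i ∈ s, F i⟫ - ⟪∑ i ∈ s, F i, G ∅⟫ ^ 2) *
        ∑ V ∈ (univ : Finset (Finset α)).filter (fun V => V ≠ ∅ ∧ p V), mob M V := by
  set f := ∑ i ∈ s, F i with hf
  set T := (univ : Finset (Finset α)).filter (fun V => V ≠ ∅ ∧ p V) with hT
  set P := ∑ V ∈ T, mob G V with hP
  set e := G ∅ with he
  have hee : ⟪e, e⟫ = 1 := by rw [he, hG, inter_self, hM]
  -- components of `f`
  have h1 : ∀ i ∈ s, ∀ V, ¬ V ⊆ S i → ⟪F i, mob G V⟫ = 0 := by
    intro i hi V h
    obtain ⟨j, hj, hj'⟩ := not_subset.1 h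
    rw [inner_mob]
    refine mob_eq_zero hj fun K => ?_
    rw [hFG i hi, hFG i hi K]
    congr 2
    ext x
    simp only [mem_inter, mem_insert]
    constructor
    · rintro ⟨rfl | b, a⟩
      · exact absurd a hj'
      · exact ⟨b, a⟩
    · rintro ⟨b, a⟩
      exact ⟨Or.inr b, a⟩
  have h2 : ∀ V, ¬ p V → ⟪f, mob G V⟫ = 0 := by
    intro V hV
    rw [hf, sum_inner]
    exact sum_eq_zero fun i hi => h1 i hi V fun h => hV (hp (S i) V h (hS i hi))
  have h3 : ⟪f, G univ⟫ = ⟪f, e⟫ + ⟪f, P⟫ := by
    have h4 : G univ = ∑ V : Finset α, mob G V := by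
      rw [← powerset_univ, sum_mob]
    rw [h4, inner_sum, hP, inner_sum, ← sum_filter_add_sum_filter_not univ
      (fun V : Finset α => V ≠ ∅ ∧ p V) (fun V => ⟪f, mob G V⟫), add_comm]
    congr 1
    rw [sum_eq_single ∅]
    · rw [mob_empty]
    · intro V hV hne
      have h5 := (mem_filter.1 hV).2
      exact h2 V (by
        by_contra h6
        exact h5 ⟨hne, h6⟩)
    · intro h
      exact absurd (mem_filter.2 ⟨mem_univ _, fun h5 => h5.1 rfl⟩) h
  have h4 : ⟪e, P⟫ = 0 := by
    rw [hP, inner_sum]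
    refine sum_eq_zero fun V hV => ?_
    obtain ⟨i, hi⟩ := nonempty_iff_ne_empty.2 (mem_filter.1 hV).2.1
    rw [inner_mob]
    refine mob_eq_zero hi fun K => ?_
    rw [he, hG, hG, empty_inter, empty_inter]
  have h5 : ⟪P, P⟫ = ∑ V ∈ T, mob M V := by
    rw [hP, sum_inner]
    refine sum_congr rfl fun V hV => ?_
    rw [inner_sum]
    rw [sum_eq_single V]
    · rw [inner_mob_mob hG, if_pos rfl]
    · intro V' _ hne
      rw [inner_mob_mob hG, if_neg (Ne.symm hne)]
    · intro h
      exact absurd hV h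
  have h6 : ⟪f, P⟫ = ⟪f - ⟪f, e⟫ • e, P⟫ := by
    rw [inner_sub_left, real_inner_smul_left, h4, mul_zero, sub_zero]
  have h7 : ⟪f - ⟪f, e⟫ • e, f - ⟪f, e⟫ • e⟫ = ⟪f, f⟫ - ⟪f, e⟫ ^ 2 := by
    rw [inner_sub_left, inner_sub_right, inner_sub_right, real_inner_smul_left,
      real_inner_smul_left, real_inner_smul_right, real_inner_smul_right, hee,
      real_inner_comm f e]
    ring
  have h8 := real_inner_mul_inner_self_le (f - ⟪f, e⟫ • e) P
  rw [h7, h5, ← h6] at h8
  rw [h3]
  calc (⟪f, e⟫ + ⟪f, P⟫ - ⟪f, e⟫) ^ 2 = ⟪f, P⟫ * ⟪f, P⟫ := by ring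
    _ ≤ _ := h8

end Hilb

/-- uniqueness of the Möbius inversion -/
theorem eq_of_powerset_sum {E : Type*} [AddCommGroup E] {a b : Finset α → E}
    (h : ∀ U : Finset α, ∑ V ∈ U.powerset, a V = ∑ V ∈ U.powerset, b V) (U : Finset α) :
    a U = b U := by
  induction U using Finset.strongInduction with
  | H U ih =>
    have h1 := h U
    rw [← sum_erase_add _ _ (mem_powerset_self U), ← sum_erase_add _ _ (mem_powerset_self U)] at h1
    have h2 : ∑ V ∈ U.powerset.erase U, a V = ∑ V ∈ U.powerset.erase U, b V := by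
      refine sum_congr rfl fun V hV => ?_
      rw [mem_erase, mem_powerset] at hV
      exact ih V (lt_of_le_of_ne hV.2 hV.1)
    rw [h2] at h1
    exact add_left_cancel h1

theorem mob_eq_of_sum {E : Type*} [AddCommGroup E] [Module ℝ E] {M s : Finset α → E}
    (h : ∀ U : Finset α, ∑ V ∈ U.powerset, s V = M U) (U : Finset α) : mob M U = s U :=
  eq_of_powerset_sum (fun U => by rw [sum_mob, h]) U

end Pool.Agent.H47.LV
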