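import Mathlib

/-!
# Numerical estimates for the sum `∑_{v ≤ D} C(n,v) (p - 1)^v`
-/

set_option autoImplicit false

open Finset

namespace Pool.Agent.H47.LV

theorem binom_le {y : ℝ} (hy : 0 ≤ y) (n D : ℕ) :
    ∑ v ∈ range (D + 1), (n.choose v : ℝ) * y ^ v ≤ (y + 1) ^ n := by
  have h1 : (y + 1) ^ n = ∑ v ∈ range (n + 1), (n.choose v : ℝ) * y ^ v := by
    rw [add_pow]
    exact sum_congr rfl fun v _ => by ring
  have h2 : ∑ v ∈ range (n + 1), (n.choose v : ℝ) * y ^ v =
      ∑ v ∈ range (n + D + 1), (n.choose v : ℝ) * y ^ v := by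
    refine sum_subset (range_mono (by omega)) fun v _ hv => ?_
    rw [mem_range, not_lt] at hv
    rw [Nat.choose_eq_zero_of_lt (by omega)]
    simp
  rw [h1, h2]
  refine sum_le_sum_of_subset_of_nonneg (range_mono (by omega)) fun v _ _ => by positivity

theorem binom_tail {τ : ℝ} (hτ : 0 < τ) : ∃ c : ℝ, 0 < c ∧ ∀ n D : ℕ, (D : ℝ) ≤ c * n →
    ∑ v ∈ range (D + 1), (n.choose v : ℝ) ≤ Real.exp (τ * n) := by
  set x : ℝ := min (τ / 2) (1 / 2) with hx
  have hx0 : 0 < x := lt_min (by linarith) (by norm_num)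
  have hx1 : x ≤ 1 / 2 := min_le_right _ _
  have hxτ : x ≤ τ / 2 := min_le_left _ _
  have hl : 0 < -Real.log x := by
    have := Real.log_neg hx0 (by linarith)
    linarith
  refine ⟨τ / 2 / (-Real.log x), by positivity, fun n D hD => ?_⟩
  have hn : (0 : ℝ) ≤ n := Nat.cast_nonneg n
  have h1 : x ^ D * ∑ v ∈ range (D + 1), (n.choose v : ℝ) ≤ Real.exp (x * n) := by
    rw [mul_sum]
    calc ∑ v ∈ range (D + 1), x ^ D * (n.choose v : ℝ)
        ≤ ∑ v ∈ range (D + 1), (n.choose v : ℝ) * x ^ v := by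
          refine sum_le_sum fun v hv => ?_
          rw [mul_comm]
          refine mul_le_mul_of_nonneg_left ?_ (Nat.cast_nonneg _)
          exact pow_le_pow_of_le_one hx0.le (by linarith) (by rw [mem_range] at hv; omega)
      _ ≤ (x + 1) ^ n := binom_le hx0.le n D
      _ ≤ Real.exp x ^ n := pow_le_pow_left₀ (by positivity) (Real.add_one_le_exp x) n
      _ = Real.exp (x * n) := by rw [← Real.exp_nat_mul, mul_comm]
  have h2 : x ^ D = Real.exp (-(D * (-Real.log x))) := by
    rw [← Real.rpow_natCast, Real.rpow_def_of_pos hx0]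
    congr 1
    ring
  have h3 : ∑ v ∈ range (D + 1), (n.choose v : ℝ) ≤ Real.exp (x * n) * Real.exp (D * (-Real.log x)) := by
    rw [h2] at h1
    have h4 : Real.exp (D * (-Real.log x)) * (Real.exp (-(D * (-Real.log x))) *
        ∑ v ∈ range (D + 1), (n.choose v : ℝ)) = ∑ v ∈ range (D + 1), (n.choose v : ℝ) := by
      rw [← mul_assoc, ← Real.exp_add, add_neg_cancel, Real.exp_zero, one_mul]
    rw [← h4, mul_comm (Real.exp (x * n))]
    exact mul_le_mul_of_nonneg_left h1 (Real.exp_pos _).le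
  refine h3.trans ?_
  rw [← Real.exp_add]
  refine Real.exp_le_exp.2 ?_
  have h5 : D * (-Real.log x) ≤ τ / 2 * n := by
    calc D * (-Real.log x) ≤ (τ / 2 / (-Real.log x) * n) * (-Real.log x) :=
          mul_le_mul_of_nonneg_right hD hl.le
      _ = τ / 2 * n := by rw [div_mul_eq_mul_div, div_mul_cancel₀ _ hl.ne']
  have h6 : x * n ≤ τ / 2 * n := mul_le_mul_of_nonneg_right hxτ hn
  linarith

theorem num {lam R : ℝ} (h0 : 0 ≤ lam) (h1 : lam < 1) (hR : 0 ≤ R) :
    ∃ c θ : ℝ, 0 < c ∧ θ < 1 ∧ ∀ n D : ℕ, (D : ℝ) ≤ c * n → ∀ q y p : ℝ, 0 ≤ q → 0 ≤ y →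
      n * y ^ 2 ≤ lam ^ 2 * q → 1 ≤ p → (R * y ≤ 1 → p ≤ Real.exp (1 / 2 * y ^ 2 * (1 + R * y))) →
      p ≤ Real.exp (R * y) →
      ∑ v ∈ range (D + 1), (n.choose v : ℝ) * (p - 1) ^ v ≤ Real.exp (θ / 2 * q) := by
  have hl2 : lam ^ 2 < 1 := by nlinarith
  have hl0 : 0 ≤ lam ^ 2 := sq_nonneg _
  set θ : ℝ := (1 + lam ^ 2) / 2 with hθ
  set ε : ℝ := (1 - lam ^ 2) / (2 * (R + 1)) with hε
  have hε0 : 0 < ε := div_pos (by linarith) (by linarith)
  have hRε : R * ε ≤ (1 - lam ^ 2) / 2 := by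
    rw [hε]
    rw [mul_div_assoc', div_le_div_iff₀ (by linarith) (by norm_num)]
    nlinarith
  have hθ0 : 0 < θ := by rw [hθ]; linarith
  obtain ⟨c0, hc0, hb⟩ := binom_tail (τ := ε ^ 2 * θ / 4) (by positivity)
  refine ⟨min c0 (ε * θ / (4 * (R + 1))), θ, lt_min hc0 (by positivity), by rw [hθ]; linarith, ?_⟩
  intro n D hD q y p hq hy hny hp hp1 hp2
  have hn : (0 : ℝ) ≤ n := Nat.cast_nonneg n
  have hD1 : (D : ℝ) ≤ c0 * n := hD.trans (mul_le_mul_of_nonneg_right (min_le_left _ _) hn)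
  have hD2 : (D : ℝ) ≤ ε * θ / (4 * (R + 1)) * n :=
    hD.trans (mul_le_mul_of_nonneg_right (min_le_right _ _) hn)
  by_cases hc : y ≤ ε
  · have hRy : R * y ≤ R * ε := mul_le_mul_of_nonneg_left hc hR
    have h2 := hp1 (by linarith)
    have h3 : ∑ v ∈ range (D + 1), (n.choose v : ℝ) * (p - 1) ^ v ≤ p ^ n := by
      have := binom_le (y := p - 1) (by linarith) n D
      rwa [sub_add_cancel] at this
    refine h3.trans ?_
    calc p ^ n ≤ Real.exp (1 / 2 * y ^ 2 * (1 + R * y)) ^ n := pow_le_pow_left₀ (by linarith) h2 n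
      _ = Real.exp (n * (1 / 2 * y ^ 2 * (1 + R * y))) := by rw [← Real.exp_nat_mul]
      _ ≤ Real.exp (θ / 2 * q) := by
          refine Real.exp_le_exp.2 ?_
          have h4 : 0 ≤ 1 + R * y := by positivity
          have h5 : n * (1 / 2 * y ^ 2 * (1 + R * y)) ≤ 1 / 2 * (lam ^ 2 * q) * (1 + R * y) := by
            nlinarith [mul_le_mul_of_nonneg_right hny h4]
          have h6 : lam ^ 2 * (1 + R * y) ≤ θ := by
            rw [hθ]
            nlinarith
          have h7 : lam ^ 2 * (1 + R * y) * q ≤ θ * q := mul_le_mul_of_nonneg_right h6 hq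
          nlinarith
  · rw [not_le] at hc
    have h2 : n * ε ^ 2 ≤ q := by
      have h3 : n * ε ^ 2 ≤ n * y ^ 2 :=
        mul_le_mul_of_nonneg_left (pow_le_pow_left₀ hε0.le hc.le 2) hn
      nlinarith
    have h3 : n * y * ε ≤ q := by
      have h4 : n * y * ε ≤ n * y * y := mul_le_mul_of_nonneg_left hc.le (by positivity)
      nlinarith
    have h4 : ∑ v ∈ range (D + 1), (n.choose v : ℝ) * (p - 1) ^ v ≤
        p ^ D * ∑ v ∈ range (D + 1), (n.choose v : ℝ) := by
      rw [mul_sum]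
      refine sum_le_sum fun v hv => ?_
      rw [mul_comm]
      refine mul_le_mul_of_nonneg_right ?_ (Nat.cast_nonneg _)
      calc (p - 1) ^ v ≤ p ^ v := pow_le_pow_left₀ (by linarith) (by linarith) v
        _ ≤ p ^ D := pow_le_pow_right₀ hp (by rw [mem_range] at hv; omega)
    refine h4.trans ?_
    calc p ^ D * ∑ v ∈ range (D + 1), (n.choose v : ℝ)
        ≤ Real.exp (R * y) ^ D * Real.exp (ε ^ 2 * θ / 4 * n) :=
          mul_le_mul (pow_le_pow_left₀ (by linarith) hp2 D) (hb n D hD1)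
            (sum_nonneg fun v _ => Nat.cast_nonneg _) (by positivity)
      _ = Real.exp (D * (R * y) + ε ^ 2 * θ / 4 * n) := by rw [← Real.exp_nat_mul, ← Real.exp_add]
      _ ≤ Real.exp (θ / 2 * q) := by
          refine Real.exp_le_exp.2 ?_
          have h5 : D * (R * y) ≤ θ / 4 * q := by
            have h6 : D * (R * y) ≤ (ε * θ / (4 * (R + 1)) * n) * (R * y) :=
              mul_le_mul_of_nonneg_right hD2 (by positivity)
            have h7 : (ε * θ / (4 * (R + 1)) * n) * (R * y) = θ / 4 * (R / (R + 1)) * (n * y * ε) := by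
              field_simp
            have h8 : R / (R + 1) ≤ 1 := (div_le_one (by linarith)).2 (by linarith)
            have h9 : 0 ≤ R / (R + 1) := by positivity
            rw [h7] at h6
            refine h6.trans ?_
            calc θ / 4 * (R / (R + 1)) * (n * y * ε) ≤ θ / 4 * 1 * (n * y * ε) := by
                  refine mul_le_mul_of_nonneg_right ?_ (by positivity)
                  exact mul_le_mul_of_nonneg_left h8 (by positivity)
              _ ≤ θ / 4 * q := by
                  rw [mul_one]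
                  exact mul_le_mul_of_nonneg_left h3 (by positivity)
          have h6 : ε ^ 2 * θ / 4 * n ≤ θ / 4 * q := by
            have : ε ^ 2 * θ / 4 * n = θ / 4 * (n * ε ^ 2) := by ring
            rw [this]
            exact mul_le_mul_of_nonneg_left h2 (by positivity)
          linarith

end Pool.Agent.H47.LV
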