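import Mathlib

/-!
# Exponential moments of a bounded isotropic vector
-/

set_option autoImplicit false

open MeasureTheory
open scoped BigOperators

namespace Pool.Agent.H47.LV

theorem exp_cubic {x : ℝ} (hx : |x| ≤ 1) : Real.exp x ≤ 1 + x + x ^ 2 / 2 * (1 + |x|) := by
  have h := Real.exp_bound hx (n := 3) (by norm_num)
  simp only [Finset.sum_range_succ, Finset.sum_range_zero, Nat.factorial] at h
  norm_num at h
  have h1 := (abs_le.1 h).2
  have h2 : |x| ^ 3 = x ^ 2 * |x| := by
    rw [pow_succ, sq_abs]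
  rw [h2] at h1
  have h3 : 0 ≤ x ^ 2 * |x| := by positivity
  nlinarith

variable {G : Type} [MeasurableSpace G] (μ : Measure G) [IsProbabilityMeasure μ]
  {ι : Type*} [Fintype ι] [DecidableEq ι]

/-- the exponential moment -/
noncomputable def phi {G : Type} [MeasurableSpace G] (μ : Measure G) {ι : Type*} [Fintype ι]
    (w : ι → G → ℝ) (y : ι → ℝ) : ℝ :=
  ∫ h, Real.exp (∑ l, y l * w l h) ∂μ

omit [DecidableEq ι] in
theorem abs_lin_le {w : ι → G → ℝ} {b : ℝ} (hb0 : 0 ≤ b) (hb : ∀ l h, |w l h| ≤ b)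
    (y : ι → ℝ) {Y : ℝ} (hY0 : 0 ≤ Y) (hY : Y ^ 2 = ∑ l, y l ^ 2) (h : G) :
    |∑ l, y l * w l h| ≤ b * Real.sqrt (Fintype.card ι) * Y := by
  have h1 : (∑ l, y l * w l h) ^ 2 ≤ (∑ l, y l ^ 2) * ∑ l, w l h ^ 2 :=
    Finset.sum_mul_sq_le_sq_mul_sq _ _ _
  have h2 : ∑ l, w l h ^ 2 ≤ Fintype.card ι * b ^ 2 := by
    calc ∑ l, w l h ^ 2 ≤ ∑ _l : ι, b ^ 2 := Finset.sum_le_sum fun l _ => by
          rw [← sq_abs]
          exact pow_le_pow_left₀ (abs_nonneg _) (hb l h) 2
      _ = Fintype.card ι * b ^ 2 := by simp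
  have h3 : (∑ l, y l * w l h) ^ 2 ≤ (b * Real.sqrt (Fintype.card ι) * Y) ^ 2 := by
    calc (∑ l, y l * w l h) ^ 2 ≤ Y ^ 2 * (Fintype.card ι * b ^ 2) := by
          rw [hY]
          exact h1.trans (mul_le_mul_of_nonneg_left h2 (Finset.sum_nonneg fun _ _ => sq_nonneg _))
      _ = (b * Real.sqrt (Fintype.card ι) * Y) ^ 2 := by
          rw [mul_pow, mul_pow, Real.sq_sqrt (Nat.cast_nonneg _)]
          ring
  exact abs_le_of_sq_le_sq h3 (by positivity)

theorem phi_bounds {w : ι → G → ℝ} (hw : ∀ l, Measurable (w l)) {b : ℝ} (hb0 : 0 ≤ b)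
    (hb : ∀ l h, |w l h| ≤ b) (hmean : ∀ l, ∫ h, w l h ∂μ = 0)
    (hcov : ∀ l l', ∫ h, w l h * w l' h ∂μ = if l = l' then 1 else 0)
    (y : ι → ℝ) {Y : ℝ} (hY0 : 0 ≤ Y) (hY : Y ^ 2 = ∑ l, y l ^ 2) :
    1 ≤ phi μ w y ∧
    (b * Real.sqrt (Fintype.card ι) * Y ≤ 1 →
      phi μ w y ≤ Real.exp (1 / 2 * Y ^ 2 * (1 + b * Real.sqrt (Fintype.card ι) * Y))) ∧
    phi μ w y ≤ Real.exp (b * Real.sqrt (Fintype.card ι) * Y) := by
  set R := b * Real.sqrt (Fintype.card ι) with hR
  set x : G → ℝ := fun h => ∑ l, y l * w l h with hx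
  have hxm : Measurable x := Finset.measurable_sum _ fun l _ => (hw l).const_mul _
  have hxb : ∀ h, |x h| ≤ R * Y := fun h => abs_lin_le hb0 hb y hY0 hY h
  have hwi : ∀ l, Integrable (w l) μ := fun l =>
    Integrable.of_bound (C := b) (hw l).aestronglyMeasurable
      (Filter.Eventually.of_forall fun h => by rw [Real.norm_eq_abs]; exact hb l h)
  have hwwi : ∀ l l', Integrable (fun h => w l h * w l' h) μ := fun l l' =>
    Integrable.of_bound (C := b * b) ((hw l).mul (hw l')).aestronglyMeasurable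
      (Filter.Eventually.of_forall fun h => by
        rw [Real.norm_eq_abs, abs_mul]
        exact mul_le_mul (hb l h) (hb l' h) (abs_nonneg _) hb0)
  have hxi : Integrable x μ := integrable_finsetSum _ fun l _ => (hwi l).const_mul _
  have hxmean : ∫ h, x h ∂μ = 0 := by
    simp only [hx]
    rw [integral_finsetSum _ fun l _ => (hwi l).const_mul _]
    refine Finset.sum_eq_zero fun l _ => ?_
    rw [integral_const_mul, hmean, mul_zero]
  have hxx : ∀ h, x h ^ 2 = ∑ l, ∑ l', (y l * y l') * (w l h * w l' h) := by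
    intro h
    simp only [hx]
    rw [sq, Finset.sum_mul_sum]
    exact Finset.sum_congr rfl fun l _ => Finset.sum_congr rfl fun l' _ => by ring
  have hx2i : Integrable (fun h => x h ^ 2) μ := by
    simp_rw [hxx]
    exact integrable_finsetSum _ fun l _ => integrable_finsetSum _ fun l' _ => (hwwi l l').const_mul _
  have hx2 : ∫ h, x h ^ 2 ∂μ = Y ^ 2 := by
    simp_rw [hxx]
    rw [integral_finsetSum _ fun l _ =>
      integrable_finsetSum _ fun l' _ => (hwwi l l').const_mul _, hY]
    refine Finset.sum_congr rfl fun l _ => ?_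
    rw [integral_finsetSum _ fun l' _ => (hwwi l l').const_mul _]
    simp_rw [integral_const_mul, hcov]
    simp
    ring
  have hei : Integrable (fun h => Real.exp (x h)) μ :=
    Integrable.of_bound (C := Real.exp (R * Y)) (Real.measurable_exp.comp hxm).aestronglyMeasurable
      (Filter.Eventually.of_forall fun h => by
        rw [Real.norm_eq_abs, abs_of_pos (Real.exp_pos _)]
        exact Real.exp_le_exp.2 ((le_abs_self _).trans (hxb h)))
  refine ⟨?_, ?_, ?_⟩
  · calc (1 : ℝ) = ∫ h, (x h + 1) ∂μ := by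
          rw [integral_add hxi (integrable_const _), hxmean]
          simp
      _ ≤ phi μ w y := integral_mono (hxi.add (integrable_const _)) hei
          fun h => Real.add_one_le_exp (x h)
  · intro h1
    have h2 : ∀ h, Real.exp (x h) ≤ (1 + x h) + (1 + R * Y) / 2 * x h ^ 2 := by
      intro h
      have h3 := exp_cubic ((hxb h).trans h1)
      have h4 : x h ^ 2 / 2 * (1 + |x h|) ≤ x h ^ 2 / 2 * (1 + R * Y) :=
        mul_le_mul_of_nonneg_left (by linarith [hxb h]) (by positivity)
      linarith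
    have h1i : Integrable (fun h => 1 + x h) μ := (integrable_const _).add hxi
    calc phi μ w y ≤ ∫ h, ((1 + x h) + (1 + R * Y) / 2 * x h ^ 2) ∂μ :=
          integral_mono hei (h1i.add (hx2i.const_mul _)) h2
      _ = 1 + (1 + R * Y) / 2 * Y ^ 2 := by
          rw [integral_add h1i (hx2i.const_mul _), integral_const_mul, hx2,
            integral_add (integrable_const _) hxi, hxmean]
          simp
      _ ≤ Real.exp ((1 + R * Y) / 2 * Y ^ 2) := by
          have := Real.add_one_le_exp ((1 + R * Y) / 2 * Y ^ 2)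
          linarith
      _ = _ := by
          congr 1
          ring
  · calc phi μ w y ≤ ∫ _h, Real.exp (R * Y) ∂μ := integral_mono hei (integrable_const _)
          fun h => Real.exp_le_exp.2 ((le_abs_self _).trans (hxb h))
      _ = Real.exp (R * Y) := by simp

end Pool.Agent.H47.LV
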