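import Mathlib
import Pool.Agent.H47.LV.Hilb
import Pool.Agent.H47.LV.Num
import Pool.Agent.H47.LV.Phi
import Pool.Agent.H47.LV.Gauss
import Pool.Agent.H70.SS.Lin

/-!
# The second moment on a set of vertices
-/

set_option autoImplicit false

open MeasureTheory ProbabilityTheory
open scoped BigOperators

namespace Pool.Agent.H47.LV

open Pool.Agent.H70.SS (gam integral_exp_lin integrable_exp_lin integrable_exp_abs
  integral_exp_quad integrable_exp_quad)

variable {G : Type} [MeasurableSpace G] (μ : Measure G) [IsProbabilityMeasure μ]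
  {ι : Type*} [Fintype ι] {n : ℕ}

/-- the second moment of the likelihood ratio on the vertices in `K` -/
noncomputable def MK (μ : Measure G) (w : ι → G → ℝ) (a : ℝ) (K : Finset (Fin n)) : ℝ :=
  ∫ h : Fin n → G, Real.exp ((∑ l, (a * ∑ i ∈ K, w l (h i)) ^ 2) / 2)
    ∂(Measure.pi fun _ : Fin n => μ)

theorem MK_empty (w : ι → G → ℝ) (a : ℝ) : MK μ w a (∅ : Finset (Fin n)) = 1 := by
  simp [MK]

/-- integral of a product over the vertices in `K` -/
theorem integral_prod_K (K : Finset (Fin n)) (x : G → ℝ) :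
    ∫ h : Fin n → G, Real.exp (∑ i ∈ K, x (h i)) ∂(Measure.pi fun _ : Fin n => μ) =
      (∫ g, Real.exp (x g) ∂μ) ^ K.card := by
  have h1 : (fun h : Fin n → G => Real.exp (∑ i ∈ K, x (h i))) =
      fun h => ∏ i, (fun (i : Fin n) (g : G) => if i ∈ K then Real.exp (x g) else 1) i (h i) := by
    funext h
    rw [Real.exp_sum, Finset.prod_ite_mem, Finset.univ_inter]
  rw [h1, integral_fintype_prod_eq_prod (μ := fun _ : Fin n => μ)
    (fun (i : Fin n) (g : G) => if i ∈ K then Real.exp (x g) else 1)]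
  have h2 : ∀ i : Fin n, ∫ g, (if i ∈ K then Real.exp (x g) else 1) ∂μ =
      if i ∈ K then ∫ g, Real.exp (x g) ∂μ else 1 := by
    intro i
    split_ifs
    · rfl
    · simp
  rw [Finset.prod_congr rfl fun i _ => h2 i, Finset.prod_ite_mem, Finset.univ_inter,
    Finset.prod_const]

theorem MK_eq {w : ι → G → ℝ} (hw : ∀ l, Measurable (w l)) {b : ℝ}
    (hb : ∀ l h, |w l h| ≤ b) (a : ℝ) (K : Finset (Fin n)) :
    MK μ w a K = ∫ ξ : ι → ℝ, phi μ w (fun l => a * ξ l) ^ K.card ∂(gam ι) := by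
  have h1 : ∀ h : Fin n → G, Real.exp ((∑ l, (a * ∑ i ∈ K, w l (h i)) ^ 2) / 2) =
      ∫ ξ, Real.exp (∑ l, ξ l * (a * ∑ i ∈ K, w l (h i))) ∂(gam ι) := fun h =>
    (integral_exp_lin _).symm
  unfold MK
  simp_rw [h1]
  rw [integral_integral_swap]
  · refine integral_congr_ae (ae_of_all _ fun ξ => ?_)
    show ∫ h : Fin n → G, Real.exp (∑ l, ξ l * (a * ∑ i ∈ K, w l (h i)))
      ∂(Measure.pi fun _ : Fin n => μ) = _
    have h2 : ∀ h : Fin n → G, ∑ l, ξ l * (a * ∑ i ∈ K, w l (h i)) =
        ∑ i ∈ K, (fun g => ∑ l, (a * ξ l) * w l g) (h i) := by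
      intro h
      rw [Finset.sum_comm]
      refine Finset.sum_congr rfl fun l _ => ?_
      rw [← Finset.mul_sum]
      ring
    simp_rw [h2]
    exact integral_prod_K μ K (fun g => ∑ l, (a * ξ l) * w l g)
  · have hm : Measurable (Function.uncurry fun (h : Fin n → G) (ξ : ι → ℝ) =>
        Real.exp (∑ l, ξ l * (a * ∑ i ∈ K, w l (h i)))) := by
      refine Real.measurable_exp.comp (Finset.measurable_sum _ fun l _ => ?_)
      refine ((measurable_pi_apply l).comp measurable_snd).mul (Measurable.const_mul ?_ a)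
      exact Finset.measurable_sum _ fun i _ =>
        (hw l).comp ((measurable_pi_apply i).comp measurable_fst)
    have h3 : Integrable (fun p : (Fin n → G) × (ι → ℝ) =>
        Real.exp ((|a| * (K.card * b)) * ∑ l, |p.2 l|))
        ((Measure.pi fun _ : Fin n => μ).prod (gam ι)) :=
      (integrable_exp_abs (ι := ι) (|a| * (K.card * b))).comp_snd _
    refine h3.mono' hm.aestronglyMeasurable (ae_of_all _ fun p => ?_)
    show ‖Real.exp (∑ l, p.2 l * (a * ∑ i ∈ K, w l (p.1 i)))‖ ≤ _
    rw [Real.norm_eq_abs, abs_of_pos (Real.exp_pos _)]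
    refine Real.exp_le_exp.2 ?_
    rw [Finset.mul_sum]
    refine Finset.sum_le_sum fun l _ => ?_
    have h4 : |∑ i ∈ K, w l (p.1 i)| ≤ K.card * b := by
      calc |∑ i ∈ K, w l (p.1 i)| ≤ ∑ i ∈ K, |w l (p.1 i)| := Finset.abs_sum_le_sum_abs _ _
        _ ≤ ∑ _i ∈ K, b := Finset.sum_le_sum fun i _ => hb l _
        _ = K.card * b := by rw [Finset.sum_const, nsmul_eq_mul]
    calc p.2 l * (a * ∑ i ∈ K, w l (p.1 i)) ≤ |p.2 l * (a * ∑ i ∈ K, w l (p.1 i))| :=
          le_abs_self _
      _ = (|a| * |∑ i ∈ K, w l (p.1 i)|) * |p.2 l| := by rw [abs_mul, abs_mul]; ring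
      _ ≤ (|a| * (K.card * b)) * |p.2 l| := by
          refine mul_le_mul_of_nonneg_right ?_ (abs_nonneg _)
          exact mul_le_mul_of_nonneg_left h4 (abs_nonneg _)

theorem phi_le_abs {w : ι → G → ℝ} (hw : ∀ l, Measurable (w l)) {b : ℝ}
    (hb : ∀ l h, |w l h| ≤ b) (y : ι → ℝ) :
    0 ≤ phi μ w y ∧ phi μ w y ≤ Real.exp (b * ∑ l, |y l|) := by
  refine ⟨integral_nonneg fun g => (Real.exp_pos _).le, ?_⟩
  have h1 : ∀ g, ∑ l, y l * w l g ≤ b * ∑ l, |y l| := by
    intro g
    rw [Finset.mul_sum]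
    refine Finset.sum_le_sum fun l _ => ?_
    calc y l * w l g ≤ |y l * w l g| := le_abs_self _
      _ = |w l g| * |y l| := by rw [abs_mul, mul_comm]
      _ ≤ b * |y l| := mul_le_mul_of_nonneg_right (hb l g) (abs_nonneg _)
  have hm : Measurable fun g => Real.exp (∑ l, y l * w l g) :=
    Real.measurable_exp.comp (Finset.measurable_sum _ fun l _ => (hw l).const_mul _)
  have hi : Integrable (fun g => Real.exp (∑ l, y l * w l g)) μ :=
    Integrable.of_bound (C := Real.exp (b * ∑ l, |y l|)) hm.aestronglyMeasurable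
      (Filter.Eventually.of_forall fun g => by
        rw [Real.norm_eq_abs, abs_of_pos (Real.exp_pos _)]
        exact Real.exp_le_exp.2 (h1 g))
  calc phi μ w y ≤ ∫ _g, Real.exp (b * ∑ l, |y l|) ∂μ :=
        integral_mono hi (integrable_const _) fun g => Real.exp_le_exp.2 (h1 g)
    _ = _ := by simp

theorem sm_phi {w : ι → G → ℝ} (hw : ∀ l, Measurable (w l)) (a : ℝ) :
    StronglyMeasurable fun ξ : ι → ℝ => phi μ w (fun l => a * ξ l) := by
  have hm : Measurable (Function.uncurry fun (g : G) (ξ : ι → ℝ) =>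
      Real.exp (∑ l, (a * ξ l) * w l g)) := by
    refine Real.measurable_exp.comp (Finset.measurable_sum _ fun l _ => ?_)
    refine Measurable.mul (Measurable.const_mul ?_ a) ?_
    · exact (measurable_pi_apply l).comp measurable_snd
    · exact (hw l).comp measurable_fst
  exact hm.stronglyMeasurable.integral_prod_left

theorem integrable_phi_pow {w : ι → G → ℝ} (hw : ∀ l, Measurable (w l)) {b : ℝ}
    (hb : ∀ l h, |w l h| ≤ b) (a : ℝ) (k : ℕ) :
    Integrable (fun ξ : ι → ℝ => phi μ w (fun l => a * ξ l) ^ k) (gam ι) := by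
  refine (integrable_exp_abs (ι := ι) (k * (b * |a|))).mono'
    ((sm_phi μ hw a).pow k).aestronglyMeasurable (ae_of_all _ fun ξ => ?_)
  obtain ⟨h0, h1⟩ := phi_le_abs μ hw hb (fun l => a * ξ l)
  rw [Real.norm_eq_abs, abs_of_nonneg (pow_nonneg h0 k)]
  calc phi μ w (fun l => a * ξ l) ^ k ≤ Real.exp (b * ∑ l, |a * ξ l|) ^ k :=
        pow_le_pow_left₀ h0 h1 k
    _ = Real.exp (k * (b * |a|) * ∑ l, |ξ l|) := by
        rw [← Real.exp_nat_mul]
        congr 1
        simp_rw [abs_mul]
        rw [← Finset.mul_sum]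
        ring

theorem mob_MK {w : ι → G → ℝ} (hw : ∀ l, Measurable (w l)) {b : ℝ}
    (hb : ∀ l h, |w l h| ≤ b) (a : ℝ) (V : Finset (Fin n)) :
    mob (MK μ w a) V =
      ∫ ξ : ι → ℝ, (phi μ w (fun l => a * ξ l) - 1) ^ V.card ∂(gam ι) := by
  have h1 : ∀ ξ : ι → ℝ, (phi μ w (fun l => a * ξ l) - 1) ^ V.card =
      mob (fun K : Finset (Fin n) => phi μ w (fun l => a * ξ l) ^ K.card) V := fun ξ =>
    (mob_pow _ V).symm
  simp_rw [h1]
  unfold mob
  have hi : ∀ K ∈ V.powerset, Integrable (fun ξ : ι → ℝ => ((-1 : ℝ) ^ (V \ K).card) •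
      (phi μ w (fun l => a * ξ l) ^ K.card)) (gam ι) := fun K _ =>
    (integrable_phi_pow μ hw hb a K.card).smul ((-1 : ℝ) ^ (V \ K).card)
  rw [integral_finsetSum _ hi]
  refine Finset.sum_congr rfl fun K _ => ?_
  rw [MK_eq μ hw hb a K, ← integral_smul]

theorem integrable_sub_pow {w : ι → G → ℝ} (hw : ∀ l, Measurable (w l)) {b : ℝ}
    (hb : ∀ l h, |w l h| ≤ b) (a : ℝ) (k : ℕ) :
    Integrable (fun ξ : ι → ℝ => (phi μ w (fun l => a * ξ l) - 1) ^ k) (gam ι) := by
  have h2 : ∀ ξ : ι → ℝ, (phi μ w (fun l => a * ξ l) - 1) ^ k =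
      ∑ m ∈ Finset.range (k + 1), phi μ w (fun l => a * ξ l) ^ m * ((-1) ^ (k - m) * k.choose m) := by
    intro ξ
    rw [sub_eq_add_neg, add_pow]
    exact Finset.sum_congr rfl fun m _ => by ring
  simp_rw [h2]
  exact integrable_finsetSum _ fun m _ => (integrable_phi_pow μ hw hb a m).mul_const _

/-- **The bound for the sum over small sets of vertices.** -/
theorem sum_mob_le [DecidableEq ι] {lam b : ℝ} (h0 : 0 ≤ lam) (h1 : lam < 1) (hb0 : 0 ≤ b) :
    ∃ c C : ℝ, 0 < c ∧ 0 < C ∧ ∀ (G : Type) [MeasurableSpace G] (μ : Measure G)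
      [IsProbabilityMeasure μ] (w : ι → G → ℝ), (∀ l, Measurable (w l)) → (∀ l h, |w l h| ≤ b) →
      (∀ l, ∫ h, w l h ∂μ = 0) → (∀ l l', ∫ h, w l h * w l' h ∂μ = if l = l' then 1 else 0) →
      ∀ n D : ℕ, (D : ℝ) ≤ c * n →
        ∑ V ∈ (Finset.univ : Finset (Finset (Fin n))).filter (fun V => V ≠ ∅ ∧ V.card ≤ D),
          mob (MK μ w (lam / Real.sqrt n)) V ≤ C := by
  obtain ⟨c, θ, hc, hθ, hnum⟩ := num (lam := lam) (R := b * Real.sqrt (Fintype.card ι)) h0 h1
    (by positivity)
  have hs : 0 < Real.sqrt (1 - θ) := Real.sqrt_pos.2 (by linarith)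
  refine ⟨c, ((Real.sqrt (1 - θ))⁻¹) ^ Fintype.card ι, hc, by positivity, ?_⟩
  intro G _ μ _ w hw hb hmean hcov n D hD
  set a := lam / Real.sqrt n with ha
  have hpt : ∀ ξ : ι → ℝ,
      ∑ V ∈ (Finset.univ : Finset (Finset (Fin n))).filter (fun V => V ≠ ∅ ∧ V.card ≤ D),
        (phi μ w (fun l => a * ξ l) - 1) ^ V.card ≤ Real.exp (θ / 2 * ∑ l, ξ l ^ 2) := by
    intro ξ
    set q := ∑ l, ξ l ^ 2 with hq
    have hq0 : 0 ≤ q := Finset.sum_nonneg fun _ _ => sq_nonneg _
    have hsum : ∑ l, (a * ξ l) ^ 2 = a ^ 2 * q := by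
      rw [hq, Finset.mul_sum]
      exact Finset.sum_congr rfl fun l _ => by ring
    obtain ⟨p1, p2, p3⟩ := phi_bounds μ hw hb0 hb hmean hcov (fun l => a * ξ l)
      (Y := Real.sqrt (a ^ 2 * q)) (Real.sqrt_nonneg _) (by
        rw [Real.sq_sqrt (by positivity), hsum])
    have hn : (n : ℝ) * Real.sqrt (a ^ 2 * q) ^ 2 ≤ lam ^ 2 * q := by
      rw [Real.sq_sqrt (by positivity), ha, div_pow, Real.sq_sqrt (Nat.cast_nonneg _)]
      rcases Nat.eq_zero_or_pos n with h | h
      · rw [h]
        simp only [Nat.cast_zero, zero_mul]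
        positivity
      · have hn0 : (n : ℝ) ≠ 0 := by positivity
        apply le_of_eq
        field_simp
    have key := hnum n D hD q _ _ hq0 (Real.sqrt_nonneg _) hn p1 p2 p3
    refine le_trans ?_ key
    have hp0 : 0 ≤ phi μ w (fun l => a * ξ l) - 1 := by linarith
    calc ∑ V ∈ (Finset.univ : Finset (Finset (Fin n))).filter (fun V => V ≠ ∅ ∧ V.card ≤ D),
          (phi μ w (fun l => a * ξ l) - 1) ^ V.card
        ≤ ∑ V ∈ (Finset.univ : Finset (Finset (Fin n))).filter (fun V => V.card ∈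
            Finset.range (D + 1)), (phi μ w (fun l => a * ξ l) - 1) ^ V.card := by
          refine Finset.sum_le_sum_of_subset_of_nonneg ?_ fun V _ _ => pow_nonneg hp0 _
          intro V hV
          rw [Finset.mem_filter] at hV ⊢
          exact ⟨Finset.mem_univ _, Finset.mem_range.2 (by omega)⟩
      _ = ∑ v ∈ Finset.range (D + 1), ∑ V ∈ (Finset.univ : Finset (Finset (Fin n))).filter
            (fun V => V.card = v), (phi μ w (fun l => a * ξ l) - 1) ^ V.card := by
          rw [← Finset.sum_fiberwise_of_maps_to (s := (Finset.univ : Finset (Finset (Fin n))).filter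
            (fun V => V.card ∈ Finset.range (D + 1))) (t := Finset.range (D + 1))
            (g := fun V => V.card) (fun V hV => (Finset.mem_filter.1 hV).2)]
          refine Finset.sum_congr rfl fun v hv => ?_
          refine Finset.sum_congr ?_ fun _ _ => rfl
          ext V
          simp only [Finset.mem_filter, Finset.mem_univ, true_and]
          constructor
          · rintro ⟨_, h⟩
            exact h
          · intro h
            exact ⟨by rw [h]; exact hv, h⟩
      _ = ∑ v ∈ Finset.range (D + 1), (n.choose v : ℝ) *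
            (phi μ w (fun l => a * ξ l) - 1) ^ v := by
          refine Finset.sum_congr rfl fun v _ => ?_
          have h5 : ∀ V ∈ (Finset.univ : Finset (Finset (Fin n))).filter (fun V => V.card = v),
              (phi μ w (fun l => a * ξ l) - 1) ^ V.card =
              (phi μ w (fun l => a * ξ l) - 1) ^ v := fun V hV => by
            rw [(Finset.mem_filter.1 hV).2]
          rw [Finset.sum_congr rfl h5, Finset.sum_const, nsmul_eq_mul]
          congr 1
          have h6 : ((Finset.univ : Finset (Finset (Fin n))).filter (fun V => V.card = v)) =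
              Finset.powersetCard v Finset.univ := by
            ext V
            simp [Finset.mem_powersetCard]
          rw [h6, Finset.card_powersetCard, Finset.card_univ, Fintype.card_fin]
  simp_rw [mob_MK μ hw hb a]
  rw [← integral_finsetSum _ fun V _ => integrable_sub_pow μ hw hb a V.card,
    ← integral_exp_quad (ι := ι) hθ]
  exact integral_mono (integrable_finsetSum _ fun V _ => integrable_sub_pow μ hw hb a V.card)
    (integrable_exp_quad hθ) hpt

end Pool.Agent.H47.LV
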