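import Mathlib
import Pool.Agent.H47.LV.Mk

/-!
# Sets of pairs covered by few vertices
-/

set_option autoImplicit false

open MeasureTheory ProbabilityTheory
open scoped BigOperators

namespace Pool.Agent.H47.LV

/-- sums of Möbius transforms over fibres -/
theorem mob_fiber {α β : Type*} [DecidableEq α] [DecidableEq β] (M : Finset β → ℝ)
    (B : Finset β) (g : Finset β → Finset α) (T : Finset α → Finset β)
    (h : ∀ E U, E ⊆ B → (g E ⊆ U ↔ E ⊆ T U)) (W : Finset α) :
    mob (fun U => M (B ∩ T U)) W = ∑ E ∈ B.powerset with g E = W, mob M E := by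
  refine mob_eq_of_sum (s := fun W => ∑ E ∈ B.powerset with g E = W, mob M E) (fun U => ?_) W
  have h1 : (B ∩ T U).powerset = B.powerset.filter fun E => g E ∈ U.powerset := by
    ext E
    simp only [Finset.mem_powerset, Finset.mem_filter, Finset.subset_inter_iff]
    constructor
    · rintro ⟨a, b⟩
      exact ⟨a, (h E U a).2 b⟩
    · rintro ⟨a, b⟩
      exact ⟨a, (h E U a).1 b⟩
  rw [← sum_mob (B ∩ T U) M, h1]
  rw [← Finset.sum_fiberwise_of_maps_to (s := B.powerset.filter fun E => g E ∈ U.powerset)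
    (t := U.powerset) (g := g) (fun E hE => (Finset.mem_filter.1 hE).2)]
  refine Finset.sum_congr rfl fun V hV => ?_
  refine Finset.sum_congr ?_ fun _ _ => rfl
  ext E
  simp only [Finset.mem_filter]
  constructor
  · rintro ⟨a, rfl⟩
    exact ⟨⟨a, hV⟩, rfl⟩
  · rintro ⟨⟨a, _⟩, b⟩
    exact ⟨a, b⟩

theorem sum_biUnion_le' {α β : Type*} [DecidableEq α] [DecidableEq β] (s : Finset α)
    (t : α → Finset β) (f : β → ℝ) (hf : ∀ x, 0 ≤ f x) :
    ∑ x ∈ s.biUnion t, f x ≤ ∑ i ∈ s, ∑ x ∈ t i, f x := by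
  induction s using Finset.induction_on with
  | empty => simp
  | insert a s ha ih =>
    rw [Finset.biUnion_insert, Finset.sum_insert ha]
    have h1 := Finset.sum_union_inter (s₁ := t a) (s₂ := s.biUnion t) (f := f)
    have h2 : 0 ≤ ∑ x ∈ t a ∩ s.biUnion t, f x := Finset.sum_nonneg fun x _ => hf x
    linarith

section Pairs

variable {n : ℕ}

/-- the vertices of a set of pairs -/
def vx (E : Finset (Fin n × Fin n)) : Finset (Fin n) := E.image Prod.fst ∪ E.image Prod.snd

theorem vx_subset_iff (E : Finset (Fin n × Fin n)) (V : Finset (Fin n)) :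
    vx E ⊆ V ↔ E ⊆ V ×ˢ V := by
  unfold vx
  constructor
  · intro h e he
    rw [Finset.mem_product]
    exact ⟨h (Finset.mem_union_left _ (Finset.mem_image_of_mem _ he)),
      h (Finset.mem_union_right _ (Finset.mem_image_of_mem _ he))⟩
  · intro h x hx
    rcases Finset.mem_union.1 hx with hx | hx
    · obtain ⟨e, he, rfl⟩ := Finset.mem_image.1 hx
      exact (Finset.mem_product.1 (h he)).1
    · obtain ⟨e, he, rfl⟩ := Finset.mem_image.1 hx
      exact (Finset.mem_product.1 (h he)).2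

theorem vx_eq_empty (E : Finset (Fin n × Fin n)) : vx E = ∅ ↔ E = ∅ := by
  rw [← Finset.subset_empty, vx_subset_iff, Finset.empty_product, Finset.subset_empty]

/-- the pairs which meet `K` -/
def EK (K : Finset (Fin n)) : Finset (Fin n × Fin n) :=
  Finset.univ.filter fun e => e.1 ∈ K ∨ e.2 ∈ K

/-- `E` is covered by at most `D` vertices -/
def Cov (D : ℕ) (E : Finset (Fin n × Fin n)) : Prop :=
  ∃ K : Finset (Fin n), K.card ≤ D ∧ E ⊆ EK K

theorem Cov.mono {D : ℕ} {S V : Finset (Fin n × Fin n)} (h : V ⊆ S) : Cov D S → Cov D V := by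
  rintro ⟨K, hK, hS⟩
  exact ⟨K, hK, h.trans hS⟩

/-- the pairs which meet `K`, inside `K ∪ U` -/
theorem EK_inter (K U : Finset (Fin n)) (h : Disjoint K U) (x : Fin n × Fin n → ℝ)
    (hx : ∀ i j, x (i, j) = x (j, i)) :
    ∑ e ∈ EK K ∩ (K ∪ U) ×ˢ (K ∪ U), x e =
      ∑ e ∈ K ×ˢ K, x e + ∑ j ∈ U, 2 * ∑ i ∈ K, x (i, j) := by
  have h1 : EK K ∩ (K ∪ U) ×ˢ (K ∪ U) = (K ×ˢ K ∪ K ×ˢ U) ∪ U ×ˢ K := by
    ext ⟨i, j⟩
    simp only [EK, Finset.mem_inter, Finset.mem_filter, Finset.mem_univ, true_and,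
      Finset.mem_product, Finset.mem_union]
    tauto
  have h2 : Disjoint (K ×ˢ K ∪ K ×ˢ U) (U ×ˢ K) := by
    rw [Finset.disjoint_left]
    rintro ⟨i, j⟩ ha hb
    simp only [Finset.mem_union, Finset.mem_product] at ha hb
    rw [Finset.disjoint_left] at h
    rcases ha with ha | ha
    · exact h ha.1 hb.1
    · exact h ha.1 hb.1
  have h3 : Disjoint (K ×ˢ K) (K ×ˢ U) := by
    rw [Finset.disjoint_left]
    rintro ⟨i, j⟩ ha hb
    simp only [Finset.mem_product] at ha hb
    rw [Finset.disjoint_left] at h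
    exact h ha.2 hb.2
  rw [h1, Finset.sum_union h2, Finset.sum_union h3]
  have h4 : ∑ e ∈ K ×ˢ U, x e = ∑ j ∈ U, ∑ i ∈ K, x (i, j) := by
    rw [Finset.sum_product, Finset.sum_comm]
  have h5 : ∑ e ∈ U ×ˢ K, x e = ∑ j ∈ U, ∑ i ∈ K, x (i, j) := by
    rw [Finset.sum_product]
    exact Finset.sum_congr rfl fun j _ => Finset.sum_congr rfl fun i _ => hx j i
  rw [h4, h5, add_assoc, ← Finset.sum_add_distrib]
  congr 1
  exact Finset.sum_congr rfl fun j _ => by ring

end Pairs

section Moment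

variable {G : Type} [MeasurableSpace G] (μ : Measure G) [IsProbabilityMeasure μ]
  {ι : Type*} [Fintype ι] {n : ℕ}

/-- the exponent of a pair of vertices -/
noncomputable def xe (w : ι → G → ℝ) (a : ℝ) (h : Fin n → G) (e : Fin n × Fin n) : ℝ :=
  a ^ 2 / 2 * ∑ l, w l (h e.1) * w l (h e.2)

/-- the second moment of the likelihood ratio on a set of pairs -/
noncomputable def ME (μ : Measure G) (w : ι → G → ℝ) (a : ℝ) (E : Finset (Fin n × Fin n)) : ℝ :=
  ∫ h : Fin n → G, Real.exp (∑ e ∈ E, xe w a h e) ∂(Measure.pi fun _ : Fin n => μ)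

theorem ME_empty (w : ι → G → ℝ) (a : ℝ) : ME μ w a (∅ : Finset (Fin n × Fin n)) = 1 := by
  simp [ME]

omit [IsProbabilityMeasure μ] in
theorem ME_prod (w : ι → G → ℝ) (a : ℝ) (V : Finset (Fin n)) : ME μ w a (V ×ˢ V) = MK μ w a V := by
  unfold ME MK
  refine integral_congr_ae (ae_of_all _ fun h => ?_)
  show Real.exp _ = Real.exp _
  congr 1
  rw [Finset.sum_product]
  simp only [xe]
  have h1 : ∀ l, (a * ∑ i ∈ V, w l (h i)) ^ 2 = ∑ i ∈ V, ∑ j ∈ V, a ^ 2 * (w l (h i) * w l (h j)) := by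
    intro l
    rw [mul_pow, sq (∑ i ∈ V, w l (h i)), Finset.sum_mul_sum, Finset.mul_sum]
    exact Finset.sum_congr rfl fun i _ => Finset.mul_sum _ _ _
  simp_rw [h1]
  rw [Finset.sum_div]
  have h2 : ∀ i j, a ^ 2 / 2 * ∑ l, w l (h i) * w l (h j) =
      ∑ l, a ^ 2 * (w l (h i) * w l (h j)) / 2 := by
    intro i j
    rw [Finset.mul_sum]
    exact Finset.sum_congr rfl fun l _ => by ring
  simp_rw [h2, Finset.sum_div]
  have h3 : ∀ i ∈ V, ∑ j ∈ V, ∑ l, a ^ 2 * (w l (h i) * w l (h j)) / 2 =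
      ∑ l, ∑ j ∈ V, a ^ 2 * (w l (h i) * w l (h j)) / 2 := fun i _ => Finset.sum_comm
  rw [Finset.sum_congr rfl h3, Finset.sum_comm]

omit [IsProbabilityMeasure μ] in
/-- the sum over sets of pairs with few vertices -/
theorem sum_few (w : ι → G → ℝ) (a : ℝ) (D : ℕ) :
    ∑ E ∈ (Finset.univ : Finset (Finset (Fin n × Fin n))).filter
        (fun E => E ≠ ∅ ∧ (vx E).card ≤ D), mob (ME μ w a) E =
      ∑ V ∈ (Finset.univ : Finset (Finset (Fin n))).filter (fun V => V ≠ ∅ ∧ V.card ≤ D),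
        mob (MK μ w a) V := by
  have h1 : ∀ V : Finset (Fin n), mob (MK μ w a) V =
      ∑ E ∈ (Finset.univ : Finset (Fin n × Fin n)).powerset with vx E = V, mob (ME μ w a) E := by
    intro V
    rw [← mob_fiber (ME μ w a) Finset.univ vx (fun U => U ×ˢ U)
      (fun E U _ => vx_subset_iff E U) V]
    refine mob_congr fun K _ => ?_
    rw [Finset.univ_inter, ME_prod]
  simp_rw [h1, Finset.powerset_univ]
  rw [← Finset.sum_fiberwise_of_maps_to
    (s := (Finset.univ : Finset (Finset (Fin n × Fin n))).filter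
      (fun E => E ≠ ∅ ∧ (vx E).card ≤ D))
    (t := (Finset.univ : Finset (Finset (Fin n))).filter (fun V => V ≠ ∅ ∧ V.card ≤ D))
    (g := vx) (fun E hE => ?_)]
  · refine Finset.sum_congr rfl fun V hV => ?_
    refine Finset.sum_congr ?_ fun _ _ => rfl
    ext E
    simp only [Finset.mem_filter, Finset.mem_univ, true_and]
    constructor
    · rintro ⟨_, b⟩
      exact b
    · intro b
      rw [Finset.mem_filter] at hV
      refine ⟨⟨fun h => hV.2.1 ?_, by rw [b]; exact hV.2.2⟩, b⟩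
      rw [← b, vx_eq_empty]
      exact h
  · rw [Finset.mem_filter] at hE ⊢
    exact ⟨Finset.mem_univ _, fun h => hE.2.1 ((vx_eq_empty E).1 h), hE.2.2⟩

omit [MeasurableSpace G] in
theorem abs_xe_le {w : ι → G → ℝ} {b : ℝ} (hb0 : 0 ≤ b) (hb : ∀ l h, |w l h| ≤ b) (a : ℝ)
    (h : Fin n → G) (e : Fin n × Fin n) : |xe w a h e| ≤ a ^ 2 / 2 * (Fintype.card ι * b ^ 2) := by
  unfold xe
  rw [abs_mul, abs_of_nonneg (by positivity : 0 ≤ a ^ 2 / 2)]
  refine mul_le_mul_of_nonneg_left ?_ (by positivity)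
  calc |∑ l, w l (h e.1) * w l (h e.2)| ≤ ∑ l, |w l (h e.1) * w l (h e.2)| :=
        Finset.abs_sum_le_sum_abs _ _
    _ ≤ ∑ _l : ι, b ^ 2 := by
        refine Finset.sum_le_sum fun l _ => ?_
        rw [abs_mul, sq]
        exact mul_le_mul (hb l _) (hb l _) (abs_nonneg _) hb0
    _ = Fintype.card ι * b ^ 2 := by simp

/-- the sum over the sets of pairs which meet `K` and have the vertices `W` outside of `K` -/
theorem mob_out {w : ι → G → ℝ} (hw : ∀ l, Measurable (w l)) {b : ℝ} (hb0 : 0 ≤ b)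
    (hb : ∀ l h, |w l h| ≤ b) (a : ℝ) (K W : Finset (Fin n)) (hKW : Disjoint K W) :
    ∑ E ∈ (EK K).powerset with vx E \ K = W, mob (ME μ w a) E ≤
      Real.exp ((K.card : ℝ) ^ 2 * (a ^ 2 / 2 * (Fintype.card ι * b ^ 2))) *
        (Real.exp (2 * (K.card * (a ^ 2 / 2 * (Fintype.card ι * b ^ 2)))) - 1) ^ W.card := by
  set β : ℝ := a ^ 2 / 2 * (Fintype.card ι * b ^ 2) with hβ
  have hβ0 : 0 ≤ β := by positivity
  set A : (Fin n → G) → ℝ := fun h => ∑ e ∈ K ×ˢ K, xe w a h e with hA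
  set y : (Fin n → G) → Fin n → ℝ := fun h j => 2 * ∑ i ∈ K, xe w a h (i, j) with hy
  have hsymm : ∀ (h : Fin n → G) (i j : Fin n), xe w a h (i, j) = xe w a h (j, i) := by
    intro h i j
    simp only [xe]
    congr 1
    exact Finset.sum_congr rfl fun l _ => mul_comm _ _
  have hxm : ∀ e : Fin n × Fin n, Measurable fun h : Fin n → G => xe w a h e := by
    intro e
    unfold xe
    refine Measurable.const_mul (Finset.measurable_sum _ fun l _ => ?_) _
    exact ((hw l).comp (measurable_pi_apply e.1)).mul ((hw l).comp (measurable_pi_apply e.2))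
  have hxb : ∀ (h : Fin n → G) (e : Fin n × Fin n), |xe w a h e| ≤ β := fun h e =>
    abs_xe_le hb0 hb a h e
  have hAb : ∀ h, A h ≤ (K.card : ℝ) ^ 2 * β := by
    intro h
    calc A h ≤ ∑ _e ∈ K ×ˢ K, β := Finset.sum_le_sum fun e _ => (le_abs_self _).trans (hxb h e)
      _ = (K.card : ℝ) ^ 2 * β := by
          rw [Finset.sum_const, Finset.card_product, nsmul_eq_mul]
          push_cast
          ring
  have hyb : ∀ h j, |y h j| ≤ 2 * (K.card * β) := by
    intro h j
    simp only [hy]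
    rw [abs_mul, abs_of_nonneg (by norm_num : (0 : ℝ) ≤ 2)]
    refine mul_le_mul_of_nonneg_left ?_ (by norm_num)
    calc |∑ i ∈ K, xe w a h (i, j)| ≤ ∑ i ∈ K, |xe w a h (i, j)| :=
          Finset.abs_sum_le_sum_abs _ _
      _ ≤ ∑ _i ∈ K, β := Finset.sum_le_sum fun i _ => hxb h _
      _ = K.card * β := by rw [Finset.sum_const, nsmul_eq_mul]
  have h1 := mob_fiber (ME μ w a) (EK K) (fun E => vx E \ K) (fun U => (K ∪ U) ×ˢ (K ∪ U))
    (fun E U _ => by
      rw [← vx_subset_iff]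
      exact sdiff_le_iff) W
  rw [← h1]
  have h2 : ∀ U ⊆ W, ME μ w a (EK K ∩ (K ∪ U) ×ˢ (K ∪ U)) =
      ∫ h : Fin n → G, Real.exp (A h) * ∏ j ∈ U, Real.exp (y h j)
        ∂(Measure.pi fun _ : Fin n => μ) := by
    intro U hU
    unfold ME
    refine integral_congr_ae (ae_of_all _ fun h => ?_)
    show Real.exp (∑ e ∈ EK K ∩ (K ∪ U) ×ˢ (K ∪ U), xe w a h e) = _
    rw [EK_inter K U (hKW.mono_right hU) (xe w a h) (hsymm h), Real.exp_add,
      Real.exp_sum (s := U)]
  have hmeasA : Measurable A := Finset.measurable_sum _ fun e _ => hxm e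
  have hmeasy : ∀ j, Measurable fun h => y h j := fun j =>
    (Finset.measurable_sum _ fun i _ => hxm (i, j)).const_mul 2
  have hint : ∀ U : Finset (Fin n), Integrable (fun h : Fin n → G =>
      Real.exp (A h) * ∏ j ∈ U, Real.exp (y h j)) (Measure.pi fun _ : Fin n => μ) := by
    intro U
    refine Integrable.of_bound (C := Real.exp ((K.card : ℝ) ^ 2 * β) *
      ∏ _j ∈ U, Real.exp (2 * (K.card * β))) ?_ (ae_of_all _ fun h => ?_)
    · exact ((Real.measurable_exp.comp hmeasA).mul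
        (Finset.measurable_prod _ fun j _ => Real.measurable_exp.comp (hmeasy j))).aestronglyMeasurable
    · rw [Real.norm_eq_abs, abs_mul, Finset.abs_prod, abs_of_pos (Real.exp_pos _)]
      refine mul_le_mul (Real.exp_le_exp.2 (hAb h)) ?_
        (Finset.prod_nonneg fun _ _ => abs_nonneg _) (Real.exp_pos _).le
      refine Finset.prod_le_prod (fun _ _ => abs_nonneg _) fun j _ => ?_
      rw [abs_of_pos (Real.exp_pos _)]
      exact Real.exp_le_exp.2 ((le_abs_self _).trans (hyb h j))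
  have h3 : mob (fun U => ME μ w a (EK K ∩ (K ∪ U) ×ˢ (K ∪ U))) W =
      ∫ h : Fin n → G, Real.exp (A h) * ∏ j ∈ W, (Real.exp (y h j) - 1)
        ∂(Measure.pi fun _ : Fin n => μ) := by
    have h4 : ∀ h : Fin n → G, Real.exp (A h) * ∏ j ∈ W, (Real.exp (y h j) - 1) =
        ∑ U ∈ W.powerset, ((-1 : ℝ) ^ (W \ U).card) •
          (Real.exp (A h) * ∏ j ∈ U, Real.exp (y h j)) := by
      intro h
      simp_rw [sub_eq_add_neg]
      rw [Finset.prod_add, Finset.mul_sum]
      refine Finset.sum_congr rfl fun U _ => ?_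
      rw [Finset.prod_const, smul_eq_mul]
      ring
    simp_rw [h4]
    have h5 : ∀ U ∈ W.powerset, Integrable (fun h : Fin n → G => ((-1 : ℝ) ^ (W \ U).card) •
        (Real.exp (A h) * ∏ j ∈ U, Real.exp (y h j))) (Measure.pi fun _ : Fin n => μ) :=
      fun U _ => (hint U).smul ((-1 : ℝ) ^ (W \ U).card)
    rw [integral_finsetSum _ h5]
    unfold mob
    refine Finset.sum_congr rfl fun U hU => ?_
    rw [integral_smul, ← h2 U (Finset.mem_powerset.1 hU)]
  have hτ : ∀ h j, |Real.exp (y h j) - 1| ≤ Real.exp (2 * (K.card * β)) - 1 := by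
    intro h j
    have h5 : |Real.exp (y h j) - 1| ≤ Real.exp |y h j| - 1 := by
      rcases le_total 0 (y h j) with h6 | h6
      · rw [abs_of_nonneg h6, abs_of_nonneg]
        linarith [Real.add_one_le_exp (y h j)]
      · have h7 : Real.exp (y h j) ≤ 1 := Real.exp_le_one_iff.2 h6
        rw [abs_of_nonpos h6, abs_of_nonpos (by linarith)]
        have h8 := Real.add_one_le_exp (y h j)
        have h9 := Real.add_one_le_exp (-y h j)
        linarith
    exact h5.trans (sub_le_sub_right (Real.exp_le_exp.2 (hyb h j)) 1)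
  rw [h3]
  have hbd : ∀ h : Fin n → G, Real.exp (A h) * ∏ j ∈ W, (Real.exp (y h j) - 1) ≤
      Real.exp ((K.card : ℝ) ^ 2 * β) * (Real.exp (2 * (K.card * β)) - 1) ^ W.card := by
    intro h
    refine (le_abs_self _).trans ?_
    rw [abs_mul, Finset.abs_prod, abs_of_pos (Real.exp_pos _)]
    refine mul_le_mul (Real.exp_le_exp.2 (hAb h)) ?_
      (Finset.prod_nonneg fun _ _ => abs_nonneg _) (Real.exp_pos _).le
    calc ∏ j ∈ W, |Real.exp (y h j) - 1| ≤ ∏ _j ∈ W, (Real.exp (2 * (K.card * β)) - 1) :=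
          Finset.prod_le_prod (fun _ _ => abs_nonneg _) fun j _ => hτ h j
      _ = _ := by rw [Finset.prod_const]
  have hint2 : Integrable (fun h : Fin n → G =>
      Real.exp (A h) * ∏ j ∈ W, (Real.exp (y h j) - 1)) (Measure.pi fun _ : Fin n => μ) := by
    refine Integrable.of_bound (C := Real.exp ((K.card : ℝ) ^ 2 * β) *
      (Real.exp (2 * (K.card * β)) - 1) ^ W.card) ?_ (ae_of_all _ fun h => ?_)
    · exact ((Real.measurable_exp.comp hmeasA).mul (Finset.measurable_prod _ fun j _ =>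
        (Real.measurable_exp.comp (hmeasy j)).sub_const 1)).aestronglyMeasurable
    · rw [Real.norm_eq_abs, abs_mul, Finset.abs_prod, abs_of_pos (Real.exp_pos _)]
      refine mul_le_mul (Real.exp_le_exp.2 (hAb h)) ?_
        (Finset.prod_nonneg fun _ _ => abs_nonneg _) (Real.exp_pos _).le
      calc ∏ j ∈ W, |Real.exp (y h j) - 1| ≤ ∏ _j ∈ W, (Real.exp (2 * (K.card * β)) - 1) :=
            Finset.prod_le_prod (fun _ _ => abs_nonneg _) fun j _ => hτ h j
        _ = _ := by rw [Finset.prod_const]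
  calc ∫ h : Fin n → G, Real.exp (A h) * ∏ j ∈ W, (Real.exp (y h j) - 1)
        ∂(Measure.pi fun _ : Fin n => μ) ≤
      ∫ _h : Fin n → G, Real.exp ((K.card : ℝ) ^ 2 * β) *
        (Real.exp (2 * (K.card * β)) - 1) ^ W.card ∂(Measure.pi fun _ : Fin n => μ) :=
        integral_mono hint2 (integrable_const _) hbd
    _ = _ := by simp

/-- **The bound for the sum over the sets of pairs covered by few vertices.** -/
theorem sum_cov_le [DecidableEq ι] {lam b : ℝ} (h0 : 0 ≤ lam) (h1 : lam < 1) (hb0 : 0 ≤ b) :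
    ∃ c C : ℝ, 0 < c ∧ 0 < C ∧ ∀ (G : Type) [MeasurableSpace G] (μ : Measure G)
      [IsProbabilityMeasure μ] (w : ι → G → ℝ), (∀ l, Measurable (w l)) → (∀ l h, |w l h| ≤ b) →
      (∀ l, ∫ h, w l h ∂μ = 0) → (∀ l l', ∫ h, w l h * w l' h ∂μ = if l = l' then 1 else 0) →
      ∀ n D : ℕ, (D : ℝ) ≤ c * n →
      (∀ E : Finset (Fin n × Fin n), 0 ≤ mob (ME μ w (lam / Real.sqrt n)) E) →
      ∀ T : Finset (Finset (Fin n × Fin n)), (∀ E ∈ T, E ≠ ∅ ∧ Cov D E) →
        ∑ E ∈ T, mob (ME μ w (lam / Real.sqrt n)) E ≤ C := by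
  classical
  obtain ⟨c1, C1, hc1, hC1, key⟩ := sum_mob_le (ι := ι) (lam := lam) (b := b) h0 h1 hb0
  set β : ℝ := Fintype.card ι * b ^ 2 with hβ
  have hβ0 : 0 ≤ β := by positivity
  set κ : ℝ := 2 / c1 * (Real.log 4 + 1) with hκ
  have hlog4 : 0 < Real.log 4 := Real.log_pos (by norm_num)
  have hκ0 : 0 < κ := by positivity
  set δ : ℝ := Real.exp (-κ) with hδ
  have hδ0 : 0 < δ := Real.exp_pos _
  have hδ1 : δ ≤ 1 := Real.exp_le_one_iff.2 (by linarith)
  set c : ℝ := min (c1 / 2) (min 1 (δ / (2 * (β + 1)))) with hc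
  have hcpos : 0 < c := lt_min (by positivity) (lt_min one_pos (by positivity))
  have hc_c1 : c ≤ c1 / 2 := min_le_left _ _
  have hc_1 : c ≤ 1 := (min_le_right _ _).trans (min_le_left _ _)
  have hc_δ : c ≤ δ / (2 * (β + 1)) := (min_le_right _ _).trans (min_le_right _ _)
  have hcβ : 2 * (c * β) ≤ δ := by
    have h2 : c * (2 * (β + 1)) ≤ δ := by
      rwa [le_div_iff₀ (by positivity)] at hc_δ
    nlinarith
  refine ⟨c, C1 + 1, hcpos, by positivity, ?_⟩
  intro G _ μ _ w hw hb hmean hcov n D hD hpos T hT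
  set a := lam / Real.sqrt n with ha
  have ha2 : a ^ 2 * n ≤ 1 := by
    rw [ha, div_pow, Real.sq_sqrt (Nat.cast_nonneg _)]
    rcases Nat.eq_zero_or_pos n with h | h
    · subst h
      simp
    · have hn0 : (n : ℝ) ≠ 0 := by positivity
      rw [div_mul_cancel₀ _ hn0]
      nlinarith
  have hn : (0 : ℝ) ≤ n := Nat.cast_nonneg n
  have ha0 : 0 ≤ a ^ 2 := sq_nonneg a
  have hDc1 : (D : ℝ) ≤ c1 * n :=
    hD.trans (mul_le_mul_of_nonneg_right (by linarith) hn)
  set D1 : ℕ := ⌊c1 * n⌋₊ with hD1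
  have hD1le : (D1 : ℝ) ≤ c1 * n := Nat.floor_le (by positivity)
  have hD1lt : c1 * n < D1 + 1 := Nat.lt_floor_add_one _
  -- the three families
  set m := mob (ME μ w a) with hm
  set T1 := (Finset.univ : Finset (Finset (Fin n × Fin n))).filter
    (fun E => E ≠ ∅ ∧ (vx E).card ≤ D1) with hT1
  set KK := (Finset.univ : Finset (Finset (Fin n))).filter (fun K => K.card ≤ D) with hKK
  set WW : Finset (Fin n) → Finset (Finset (Fin n)) := fun K =>
    (Finset.univ : Finset (Finset (Fin n))).filter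
      (fun W => Disjoint K W ∧ c1 / 2 * n ≤ W.card) with hWW
  have hsub : T ⊆ T1 ∪ KK.biUnion fun K => (WW K).biUnion fun W =>
      (EK K).powerset.filter fun E => vx E \ K = W := by
    intro E hE
    obtain ⟨hE0, K, hK, hEK⟩ := hT E hE
    rw [Finset.mem_union]
    by_cases h2 : (vx E).card ≤ D1
    · left
      exact Finset.mem_filter.2 ⟨Finset.mem_univ _, hE0, h2⟩
    · right
      rw [Finset.mem_biUnion]
      refine ⟨K, Finset.mem_filter.2 ⟨Finset.mem_univ _, hK⟩, ?_⟩
      rw [Finset.mem_biUnion]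
      refine ⟨vx E \ K, Finset.mem_filter.2 ⟨Finset.mem_univ _, Finset.disjoint_sdiff, ?_⟩,
        Finset.mem_filter.2 ⟨Finset.mem_powerset.2 hEK, rfl⟩⟩
      have h3 : (vx E).card ≤ (vx E \ K).card + K.card := by
        have := Finset.card_le_card_sdiff_add_card (s := vx E) (t := K)
        exact this
      have h4 : (D1 + 1 : ℝ) ≤ (vx E \ K).card + D := by
        have h5 : D1 + 1 ≤ (vx E \ K).card + D := by omega
        exact_mod_cast h5
      have h6 : (D : ℝ) ≤ c1 / 2 * n := hD.trans (mul_le_mul_of_nonneg_right hc_c1 hn)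
      linarith
  have hT1le : ∑ E ∈ T1, m E ≤ C1 := by
    rw [hm, hT1, sum_few μ w a D1]
    exact key G μ w hw hb hmean hcov n D1 hD1le
  have hW : ∀ K ∈ KK, ∀ W ∈ WW K, ∑ E ∈ (EK K).powerset with vx E \ K = W, m E ≤
      Real.exp (-(n * Real.log 4)) := by
    intro K hK W hW
    obtain ⟨-, hKD⟩ := Finset.mem_filter.1 hK
    obtain ⟨-, hKW, hWc⟩ := Finset.mem_filter.1 hW
    refine (mob_out μ hw hb0 hb a K W hKW).trans ?_
    rw [← hβ]
    have hKc : (K.card : ℝ) ≤ c * n := by
      have : (K.card : ℝ) ≤ D := by exact_mod_cast hKD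
      linarith
    have hKa : K.card * a ^ 2 ≤ c := by
      calc K.card * a ^ 2 ≤ (c * n) * a ^ 2 := mul_le_mul_of_nonneg_right hKc ha0
        _ = c * (a ^ 2 * n) := by ring
        _ ≤ c * 1 := mul_le_mul_of_nonneg_left ha2 hcpos.le
        _ = c := mul_one _
    have e1 : (K.card : ℝ) ^ 2 * (a ^ 2 / 2 * β) ≤ n := by
      calc (K.card : ℝ) ^ 2 * (a ^ 2 / 2 * β) = (K.card * a ^ 2) * (K.card * (β / 2)) := by ring
        _ ≤ c * (c * n * (β / 2)) := by
            refine mul_le_mul hKa ?_ (by positivity) hcpos.le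
            exact mul_le_mul_of_nonneg_right hKc (by positivity)
        _ = (2 * (c * β)) * (c * n) / 4 := by ring
        _ ≤ 1 * (1 * n) / 4 := by
            refine div_le_div_of_nonneg_right ?_ (by norm_num)
            refine mul_le_mul (hcβ.trans hδ1) ?_ (by positivity) (by norm_num)
            exact mul_le_mul_of_nonneg_right hc_1 hn
        _ ≤ n := by linarith
    have e2 : 2 * (K.card * (a ^ 2 / 2 * β)) ≤ c * β := by
      calc 2 * (K.card * (a ^ 2 / 2 * β)) = (K.card * a ^ 2) * β := by ring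
        _ ≤ c * β := mul_le_mul_of_nonneg_right hKa hβ0
    have e3 : Real.exp (2 * (K.card * (a ^ 2 / 2 * β))) - 1 ≤ δ := by
      have h5 : 0 ≤ c * β := by positivity
      have h6 : c * β ≤ 1 / 2 := by linarith
      have h7 : Real.exp (c * β) ≤ 1 + 2 * (c * β) := by
        have h8 := Real.exp_bound_div_one_sub_of_interval' (x := c * β)
        have h9 := Real.exp_bound' h5 (by linarith : c * β ≤ 1) (n := 1) one_pos
        simp at h9
        nlinarith
      have h10 := Real.exp_le_exp.2 e2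
      linarith
    have e4 : 0 ≤ Real.exp (2 * (K.card * (a ^ 2 / 2 * β))) - 1 := by
      have h5 : 0 ≤ 2 * (K.card * (a ^ 2 / 2 * β)) := by positivity
      have := Real.one_le_exp h5
      linarith
    calc Real.exp ((K.card : ℝ) ^ 2 * (a ^ 2 / 2 * β)) *
          (Real.exp (2 * (K.card * (a ^ 2 / 2 * β))) - 1) ^ W.card
        ≤ Real.exp n * δ ^ W.card :=
          mul_le_mul (Real.exp_le_exp.2 e1) (pow_le_pow_left₀ e4 e3 _) (pow_nonneg e4 _)
            (Real.exp_pos _).le
      _ = Real.exp (n + W.card * (-κ)) := by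
          rw [hδ, ← Real.exp_nat_mul, ← Real.exp_add]
      _ ≤ Real.exp (-(n * Real.log 4)) := by
          refine Real.exp_le_exp.2 ?_
          have h5 : κ * (c1 / 2 * n) ≤ κ * W.card := mul_le_mul_of_nonneg_left hWc hκ0.le
          have h6 : κ * (c1 / 2 * n) = (Real.log 4 + 1) * n := by
            rw [hκ]
            field_simp
          nlinarith
  have hcard : ∀ s : Finset (Finset (Fin n)), (s.card : ℝ) ≤ 2 ^ n := by
    intro s
    have h5 : s.card ≤ 2 ^ n := by
      refine (Finset.card_le_univ s).trans ?_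
      simp
    exact_mod_cast h5
  have hexp4 : (2 : ℝ) ^ n * (2 ^ n * Real.exp (-(n * Real.log 4))) = 1 := by
    rw [Real.exp_neg, mul_comm (n : ℝ), Real.exp_mul, Real.exp_log (by norm_num), Real.rpow_natCast,
      ← mul_assoc, ← mul_pow]
    norm_num
  calc ∑ E ∈ T, m E ≤ ∑ E ∈ T1 ∪ KK.biUnion fun K => (WW K).biUnion fun W =>
        (EK K).powerset.filter fun E => vx E \ K = W, m E :=
        Finset.sum_le_sum_of_subset_of_nonneg hsub fun E _ _ => hpos E
    _ ≤ ∑ E ∈ T1, m E + ∑ E ∈ KK.biUnion fun K => (WW K).biUnion fun W =>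
        (EK K).powerset.filter fun E => vx E \ K = W, m E := by
        have h5 := Finset.sum_union_inter (s₁ := T1) (s₂ := KK.biUnion fun K =>
          (WW K).biUnion fun W => (EK K).powerset.filter fun E => vx E \ K = W) (f := m)
        have h6 : 0 ≤ ∑ E ∈ T1 ∩ KK.biUnion fun K => (WW K).biUnion fun W =>
          (EK K).powerset.filter fun E => vx E \ K = W, m E := Finset.sum_nonneg fun E _ => hpos E
        linarith
    _ ≤ C1 + 1 := by
        refine add_le_add hT1le ?_
        refine (sum_biUnion_le' KK _ m hpos).trans ?_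
        calc ∑ K ∈ KK, ∑ E ∈ (WW K).biUnion fun W =>
              (EK K).powerset.filter fun E => vx E \ K = W, m E
            ≤ ∑ K ∈ KK, ∑ W ∈ WW K, Real.exp (-(n * Real.log 4)) := by
              refine Finset.sum_le_sum fun K hK => ?_
              refine (sum_biUnion_le' (WW K) _ m hpos).trans ?_
              exact Finset.sum_le_sum fun W hW' => hW K hK W hW'
          _ ≤ ∑ _K ∈ KK, 2 ^ n * Real.exp (-(n * Real.log 4)) := by
              refine Finset.sum_le_sum fun K _ => ?_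
              rw [Finset.sum_const, nsmul_eq_mul]
              exact mul_le_mul_of_nonneg_right (hcard _) (Real.exp_pos _).le
          _ ≤ 2 ^ n * (2 ^ n * Real.exp (-(n * Real.log 4))) := by
              rw [Finset.sum_const, nsmul_eq_mul]
              exact mul_le_mul_of_nonneg_right (hcard _) (by positivity)
          _ = 1 := hexp4

end Moment

end Pool.Agent.H47.LV
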