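import Mathlib
import Pool.Agent.H28.LinearDegreeModel

/-!
# Isotropy of the vector of the real matrix coefficients
-/

set_option autoImplicit false

open MeasureTheory ProbabilityTheory
open scoped BigOperators ComplexConjugate

namespace Pool.Agent.H47.LV

open Pool.Agent.Results.MP_634cec_lc.LinearDegree
open Pool.Agent.H28.Schur

variable {G : Type} [Group G] {L : ℕ} {d : Fin L → ℕ}

/-- normalised real and imaginary parts of the matrix coefficients -/
noncomputable def wl (ρ : ∀ k : Fin L, G →* Matrix.unitaryGroup (Fin (d k)) ℂ)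
    (l : VIdx d × Bool) (g : G) : ℝ :=
  Real.sqrt 2 * (if l.2 then (vv ρ l.1 g).re else (vv ρ l.1 g).im)

theorem abs_wl_le (ρ : ∀ k : Fin L, G →* Matrix.unitaryGroup (Fin (d k)) ℂ)
    (l : VIdx d × Bool) (g : G) : |wl ρ l g| ≤ Real.sqrt 2 * ∑ k, Real.sqrt (d k) := by
  unfold wl
  rw [abs_mul, abs_of_nonneg (Real.sqrt_nonneg _)]
  refine mul_le_mul_of_nonneg_left ?_ (Real.sqrt_nonneg _)
  split_ifs
  · exact (Complex.abs_re_le_norm _).trans (norm_vv_le ρ l.1 g)
  · exact (Complex.abs_im_le_norm _).trans (norm_vv_le ρ l.1 g)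

theorem sum_wl (ρ : ∀ k : Fin L, G →* Matrix.unitaryGroup (Fin (d k)) ℂ) {n : ℕ}
    (K : Finset (Fin n)) (h : Fin n → G) :
    ∑ c : VIdx d, ‖∑ i ∈ K, vv ρ c (h i)‖ ^ 2 =
      (∑ l : VIdx d × Bool, (∑ i ∈ K, wl ρ l (h i)) ^ 2) / 2 := by
  rw [Fintype.sum_prod_type, Finset.sum_div]
  refine Finset.sum_congr rfl fun c _ => ?_
  rw [Fintype.sum_bool, ← Complex.normSq_eq_norm_sq, Complex.normSq_apply]
  simp only [wl, if_true, Bool.false_eq_true, if_false, ← Finset.mul_sum, Complex.re_sum,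
    Complex.im_sum]
  have h2 : Real.sqrt 2 ^ 2 = 2 := Real.sq_sqrt (by norm_num)
  rw [mul_pow, mul_pow, h2]
  ring

variable [TopologicalSpace G] [IsTopologicalGroup G] [CompactSpace G] [MeasurableSpace G]
  [BorelSpace G]

omit [CompactSpace G] [IsTopologicalGroup G] in
theorem measurable_wl (ρ : ∀ k : Fin L, G →* Matrix.unitaryGroup (Fin (d k)) ℂ)
    (hρ : ∀ k, Continuous fun g => (ρ k g : Matrix (Fin (d k)) (Fin (d k)) ℂ))
    (l : VIdx d × Bool) : Measurable (wl ρ l) := by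
  unfold wl
  refine Measurable.const_mul ?_ _
  split_ifs
  · exact Complex.measurable_re.comp (measurable_vv ρ hρ _)
  · exact Complex.measurable_im.comp (measurable_vv ρ hρ _)

variable (μ : Measure G) [μ.IsHaarMeasure] [IsProbabilityMeasure μ]

theorem vv_moments (ρ : ∀ k : Fin L, G →* Matrix.unitaryGroup (Fin (d k)) ℂ)
    (hρ : Admissible ρ) :
    (∀ c, ∫ g, vv ρ c g ∂μ = 0) ∧
    (∀ c e, ∫ g, vv ρ c g * conj (vv ρ e g) ∂μ = if c = e then 1 else 0) ∧
    (∀ c e, ∫ g, vv ρ c g * vv ρ e g ∂μ = 0) := by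
  obtain ⟨hcont, hirr, hne, hconj⟩ := hρ
  have hsq : ∀ k, ((Real.sqrt (d k) : ℝ) : ℂ) * ((Real.sqrt (d k) : ℝ) : ℂ) = d k := by
    intro k
    rw [← Complex.ofReal_mul, Real.mul_self_sqrt (Nat.cast_nonneg _)]
    simp
  have hconjvv : ∀ (c e : VIdx d) (g : G), vv ρ c g * conj (vv ρ e g) =
      (((Real.sqrt (d c.1) : ℝ) : ℂ) * ((Real.sqrt (d e.1) : ℝ) : ℂ)) *
      ((ρ c.1 g : Matrix (Fin (d c.1)) (Fin (d c.1)) ℂ) c.2.1 c.2.2 *
        conj ((ρ e.1 g : Matrix (Fin (d e.1)) (Fin (d e.1)) ℂ) e.2.1 e.2.2)) := by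
    intro c e g
    simp only [vv, map_mul, Complex.conj_ofReal]
    ring
  refine ⟨?_, ?_, ?_⟩
  · intro c
    simp only [vv]
    rw [integral_const_mul, schur_first μ (ρ c.1) (hcont c.1) (hconj c.1 c.1), mul_zero]
  · rintro ⟨k, a, b⟩ ⟨l, a', b'⟩
    simp_rw [hconjvv]
    rw [integral_const_mul]
    by_cases h : k = l
    · subst h
      rw [schur_same μ (ρ k) (hcont k) (hirr k), hsq]
      have hd : (d k : ℂ) ≠ 0 := by
        have : 0 < d k := a.pos
        exact_mod_cast this.ne'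
      by_cases h2 : a = a' ∧ b = b'
      · obtain ⟨rfl, rfl⟩ := h2
        simp [hd]
      · have h3 : ¬ ((⟨k, a, b⟩ : VIdx d) = ⟨k, a', b'⟩) := by
          intro h4
          apply h2
          simpa using h4
        rw [if_neg h3]
        simp [h2]
    · have h3 : ¬ ((⟨k, a, b⟩ : VIdx d) = ⟨l, a', b'⟩) := fun h4 => h (congrArg Sigma.fst h4)
      rw [if_neg h3, schur_diff μ (ρ k) (ρ l) (hcont k) (hcont l) (hne k l h), mul_zero]
  · rintro ⟨k, a, b⟩ ⟨l, a', b'⟩
    have e : ∀ g : G, vv ρ (⟨k, a, b⟩ : VIdx d) g * vv ρ (⟨l, a', b'⟩ : VIdx d) g =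
        (((Real.sqrt (d k) : ℝ) : ℂ) * ((Real.sqrt (d l) : ℝ) : ℂ)) *
        ((ρ k g : Matrix (Fin (d k)) (Fin (d k)) ℂ) a b *
          (ρ l g : Matrix (Fin (d l)) (Fin (d l)) ℂ) a' b') := by
      intro g
      simp only [vv]
      ring
    simp_rw [e]
    rw [integral_const_mul, schur_conj μ (ρ k) (ρ l) (hcont k) (hcont l) (hconj k l), mul_zero]

theorem wl_mean (ρ : ∀ k : Fin L, G →* Matrix.unitaryGroup (Fin (d k)) ℂ)
    (hρ : Admissible ρ) (l : VIdx d × Bool) : ∫ g, wl ρ l g ∂μ = 0 := by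
  obtain ⟨m1, -, -⟩ := vv_moments μ ρ hρ
  have hi : Integrable (vv ρ l.1) μ := Integrable.of_bound
    (C := ∑ k, Real.sqrt (d k)) (measurable_vv ρ hρ.1 l.1).aestronglyMeasurable
    (Filter.Eventually.of_forall fun g => norm_vv_le ρ l.1 g)
  unfold wl
  rw [integral_const_mul]
  split_ifs
  · have h := Complex.reCLM.integral_comp_comm hi
    simp only [Complex.reCLM_apply] at h
    rw [h, m1]
    simp
  · have h := Complex.imCLM.integral_comp_comm hi
    simp only [Complex.imCLM_apply] at h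
    rw [h, m1]
    simp

theorem wl_cov (ρ : ∀ k : Fin L, G →* Matrix.unitaryGroup (Fin (d k)) ℂ)
    (hρ : Admissible ρ) (l l' : VIdx d × Bool) :
    ∫ g, wl ρ l g * wl ρ l' g ∂μ = if l = l' then 1 else 0 := by
  obtain ⟨-, m2, m3⟩ := vv_moments μ ρ hρ
  obtain ⟨c, b⟩ := l
  obtain ⟨e, b'⟩ := l'
  have h2 : Real.sqrt 2 * Real.sqrt 2 = 2 := Real.mul_self_sqrt (by norm_num)
  have mc := measurable_vv ρ hρ.1 c
  have me := measurable_vv ρ hρ.1 e
  have hR0 : 0 ≤ ∑ k, Real.sqrt (d k) := Finset.sum_nonneg fun _ _ => Real.sqrt_nonneg _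
  have i1 : Integrable (fun g => vv ρ c g * conj (vv ρ e g)) μ := Integrable.of_bound
    (C := (∑ k, Real.sqrt (d k)) * ∑ k, Real.sqrt (d k))
    (mc.mul (Complex.continuous_conj.measurable.comp me)).aestronglyMeasurable
    (Filter.Eventually.of_forall fun g => by
      rw [norm_mul, RCLike.norm_conj]
      exact mul_le_mul (norm_vv_le ρ c g) (norm_vv_le ρ e g) (norm_nonneg _) hR0)
  have i2 : Integrable (fun g => vv ρ c g * vv ρ e g) μ := Integrable.of_bound
    (C := (∑ k, Real.sqrt (d k)) * ∑ k, Real.sqrt (d k))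
    (mc.mul me).aestronglyMeasurable
    (Filter.Eventually.of_forall fun g => by
      rw [norm_mul]
      exact mul_le_mul (norm_vv_le ρ c g) (norm_vv_le ρ e g) (norm_nonneg _) hR0)
  have r1 := Complex.reCLM.integral_comp_comm i1
  have r2 := Complex.reCLM.integral_comp_comm i2
  have j1 := Complex.imCLM.integral_comp_comm i1
  have j2 := Complex.imCLM.integral_comp_comm i2
  have ir1 := Complex.reCLM.integrable_comp i1
  have ir2 := Complex.reCLM.integrable_comp i2
  have ij1 := Complex.imCLM.integrable_comp i1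
  have ij2 := Complex.imCLM.integrable_comp i2
  simp only [Complex.reCLM_apply, Complex.imCLM_apply, m2, m3] at r1 r2 j1 j2 ir1 ir2 ij1 ij2
  have key : ∀ g, wl ρ (c, b) g * wl ρ (e, b') g =
      if b then (if b' then (vv ρ c g * conj (vv ρ e g)).re + (vv ρ c g * vv ρ e g).re
        else (vv ρ c g * vv ρ e g).im - (vv ρ c g * conj (vv ρ e g)).im)
      else (if b' then (vv ρ c g * vv ρ e g).im + (vv ρ c g * conj (vv ρ e g)).im
        else (vv ρ c g * conj (vv ρ e g)).re - (vv ρ c g * vv ρ e g).re) := by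
    intro g
    simp only [wl]
    cases b <;> cases b' <;>
      simp only [if_true, Bool.false_eq_true, if_false, Complex.mul_re, Complex.mul_im,
        Complex.conj_re, Complex.conj_im]
    · linear_combination ((vv ρ c g).im * (vv ρ e g).im) * h2
    · linear_combination ((vv ρ c g).im * (vv ρ e g).re) * h2
    · linear_combination ((vv ρ c g).re * (vv ρ e g).im) * h2
    · linear_combination ((vv ρ c g).re * (vv ρ e g).re) * h2
  simp_rw [key]
  have hre : ((if c = e then 1 else 0 : ℂ)).re = if c = e then 1 else 0 := by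
    split_ifs <;> simp
  have him : ((if c = e then 1 else 0 : ℂ)).im = 0 := by
    split_ifs <;> simp
  rw [hre] at r1
  rw [him] at j1
  cases b <;> cases b' <;> simp only [if_true, Bool.false_eq_true, if_false]
  · rw [integral_sub ir1 ir2, r1, r2]
    simp
  · rw [integral_add ij2 ij1, j1, j2]
    simp
  · rw [integral_sub ij2 ij1, j1, j2]
    simp
  · rw [integral_add ir1 ir2, r1, r2]
    simp

end Pool.Agent.H47.LV
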