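import Mathlib
import Pool.Agent.H70.SS.Sig
import Pool.Agent.H47.LV.Iso

/-!
# The mean shift restricted to a set of pairs of vertices
-/

set_option autoImplicit false

open MeasureTheory ProbabilityTheory
open scoped BigOperators ComplexConjugate Matrix

namespace Pool.Agent.H47.LV

open Pool.Agent.Results.MP_634cec_lc.LinearDegree
open Pool.Agent.H28.Schur

variable {G : Type} [Group G] {L n : ℕ} {d : Fin L → ℕ}

/-- the pair of vertices of a coordinate -/
def pr (c : Coord n d) : Fin n × Fin n := (c.2.1.1, c.2.2.1.1)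

/-- the shift restricted to the coordinates whose pair of vertices belongs to `E` -/
noncomputable def sE (ρ : ∀ k : Fin L, G →* Matrix.unitaryGroup (Fin (d k)) ℂ) (lam : ℝ)
    (E : Finset (Fin n × Fin n)) (g : Fin n → G) : Coord n d → ℝ :=
  fun c => if pr c ∈ E then shift ρ lam g c else 0

/-- a sum over the coordinates, sorted by the pair of vertices -/
theorem sum_coord (F : Coord n d → ℝ) : ∑ c, F c = ∑ e : Fin n × Fin n, ∑ t : VIdx d,
    (F ⟨t.1, (e.1, t.2.1), (e.2, t.2.2), true⟩ + F ⟨t.1, (e.1, t.2.1), (e.2, t.2.2), false⟩) := by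
  have hL : ∀ k : Fin L, ∑ x : (Fin n × Fin (d k)) × (Fin n × Fin (d k)) × Bool, F ⟨k, x⟩ =
      ∑ i : Fin n, ∑ a : Fin (d k), ∑ j : Fin n, ∑ b : Fin (d k),
        (F ⟨k, (i, a), (j, b), true⟩ + F ⟨k, (i, a), (j, b), false⟩) := by
    intro k
    rw [Fintype.sum_prod_type, Fintype.sum_prod_type]
    refine Finset.sum_congr rfl fun i _ => Finset.sum_congr rfl fun a _ => ?_
    rw [Fintype.sum_prod_type, Fintype.sum_prod_type]
    refine Finset.sum_congr rfl fun j _ => Finset.sum_congr rfl fun b _ => ?_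
    rw [Fintype.sum_bool]
  have hR : ∀ k : Fin L, ∑ e : Fin n × Fin n, ∑ a : Fin (d k), ∑ b : Fin (d k),
        (F ⟨k, (e.1, a), (e.2, b), true⟩ + F ⟨k, (e.1, a), (e.2, b), false⟩) =
      ∑ i : Fin n, ∑ a : Fin (d k), ∑ j : Fin n, ∑ b : Fin (d k),
        (F ⟨k, (i, a), (j, b), true⟩ + F ⟨k, (i, a), (j, b), false⟩) := by
    intro k
    rw [Fintype.sum_prod_type]
    refine Finset.sum_congr rfl fun i _ => ?_
    exact Finset.sum_comm
  have h1 : ∀ e : Fin n × Fin n, ∑ t : VIdx d,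
      (F ⟨t.1, (e.1, t.2.1), (e.2, t.2.2), true⟩ + F ⟨t.1, (e.1, t.2.1), (e.2, t.2.2), false⟩) =
      ∑ k : Fin L, ∑ a : Fin (d k), ∑ b : Fin (d k),
        (F ⟨k, (e.1, a), (e.2, b), true⟩ + F ⟨k, (e.1, a), (e.2, b), false⟩) := by
    intro e
    rw [Fintype.sum_sigma]
    exact Finset.sum_congr rfl fun k _ => Fintype.sum_prod_type _
  simp_rw [h1]
  rw [Finset.sum_comm, Fintype.sum_sigma]
  exact Finset.sum_congr rfl fun k _ => (hL k).trans (hR k).symm

/-- the inner product of the blocks of two signals -/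
theorem block_inner (ρ : ∀ k : Fin L, G →* Matrix.unitaryGroup (Fin (d k)) ℂ) (lam : ℝ)
    (g g' : Fin n → G) (e : Fin n × Fin n) :
    ∑ t : VIdx d, (shift ρ lam g ⟨t.1, (e.1, t.2.1), (e.2, t.2.2), true⟩ *
        shift ρ lam g' ⟨t.1, (e.1, t.2.1), (e.2, t.2.2), true⟩ +
      shift ρ lam g ⟨t.1, (e.1, t.2.1), (e.2, t.2.2), false⟩ *
        shift ρ lam g' ⟨t.1, (e.1, t.2.1), (e.2, t.2.2), false⟩) =
      lam ^ 2 / (2 * n) * ∑ l : VIdx d × Bool,
        wl ρ l ((g e.1)⁻¹ * g' e.1) * wl ρ l ((g e.2)⁻¹ * g' e.2) := by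
  have hw : ∀ h h' : G, ∑ l : VIdx d × Bool, wl ρ l h * wl ρ l h' =
      2 * (∑ c : VIdx d, conj (vv ρ c h) * vv ρ c h').re := by
    intro h h'
    rw [Fintype.sum_prod_type, Complex.re_sum, Finset.mul_sum]
    refine Finset.sum_congr rfl fun c _ => ?_
    rw [Fintype.sum_bool]
    have h2 : Real.sqrt 2 * Real.sqrt 2 = 2 := Real.mul_self_sqrt (by norm_num)
    simp only [wl, if_true, Bool.false_eq_true, if_false, Complex.mul_re, Complex.conj_re,
      Complex.conj_im]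
    linear_combination ((vv ρ c h).re * (vv ρ c h').re + (vv ρ c h).im * (vv ρ c h').im) * h2
  rw [hw, Fintype.sum_sigma, Fintype.sum_sigma, Complex.re_sum, Finset.mul_sum, Finset.mul_sum]
  refine Finset.sum_congr rfl fun k _ => ?_
  -- one frequency
  have hs : (Real.sqrt (d k / n)) * (Real.sqrt (d k / n)) = d k / n :=
    Real.mul_self_sqrt (by positivity)
  have h1 : ∀ x : Fin (d k) × Fin (d k),
      shift ρ lam g ⟨k, (e.1, x.1), (e.2, x.2), true⟩ *
        shift ρ lam g' ⟨k, (e.1, x.1), (e.2, x.2), true⟩ +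
      shift ρ lam g ⟨k, (e.1, x.1), (e.2, x.2), false⟩ *
        shift ρ lam g' ⟨k, (e.1, x.1), (e.2, x.2), false⟩ =
      (lam ^ 2 * (d k / n)) * (signal ρ g k (e.1, x.1) (e.2, x.2) *
        conj (signal ρ g' k (e.1, x.1) (e.2, x.2))).re := by
    intro x
    simp only [shift, if_true, Bool.false_eq_true, if_false, Complex.mul_re, Complex.conj_re,
      Complex.conj_im]
    linear_combination (lam ^ 2 * ((signal ρ g k (e.1, x.1) (e.2, x.2)).re *
      (signal ρ g' k (e.1, x.1) (e.2, x.2)).re + (signal ρ g k (e.1, x.1) (e.2, x.2)).im *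
      (signal ρ g' k (e.1, x.1) (e.2, x.2)).im)) * hs
  simp_rw [h1]
  rw [← Finset.mul_sum, ← Complex.re_sum]
  have h3 : ∑ x : Fin (d k) × Fin (d k), signal ρ g k (e.1, x.1) (e.2, x.2) *
      conj (signal ρ g' k (e.1, x.1) (e.2, x.2)) =
      ∑ x : Fin (d k) × Fin (d k),
        conj ((ρ k ((g e.1)⁻¹ * g' e.1) : Matrix (Fin (d k)) (Fin (d k)) ℂ) x.1 x.2) *
          (ρ k ((g e.2)⁻¹ * g' e.2) : Matrix (Fin (d k)) (Fin (d k)) ℂ) x.1 x.2 := by
    set A := (ρ k (g e.1) : Matrix (Fin (d k)) (Fin (d k)) ℂ) with hA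
    set B := (ρ k (g e.2) : Matrix (Fin (d k)) (Fin (d k)) ℂ) with hB
    set A' := (ρ k (g' e.1) : Matrix (Fin (d k)) (Fin (d k)) ℂ) with hA'
    set B' := (ρ k (g' e.2) : Matrix (Fin (d k)) (Fin (d k)) ℂ) with hB'
    have hinv : ∀ x : G, (ρ k x⁻¹ : Matrix (Fin (d k)) (Fin (d k)) ℂ) =
        (ρ k x : Matrix (Fin (d k)) (Fin (d k)) ℂ)ᴴ := by
      intro x
      ext i j
      rw [inv_entry]
      rfl
    have hmul : ∀ x y : G, (ρ k (x * y) : Matrix (Fin (d k)) (Fin (d k)) ℂ) =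
        (ρ k x : Matrix (Fin (d k)) (Fin (d k)) ℂ) * (ρ k y : Matrix _ _ ℂ) := by
      intro x y
      rw [map_mul]
      rfl
    have htr : ∀ P Q : Matrix (Fin (d k)) (Fin (d k)) ℂ,
        ∑ x : Fin (d k) × Fin (d k), P x.1 x.2 * conj (Q x.1 x.2) = Matrix.trace (P * Qᴴ) := by
      intro P Q
      rw [Fintype.sum_prod_type, Matrix.trace]
      refine Finset.sum_congr rfl fun i _ => ?_
      rw [Matrix.diag_apply, Matrix.mul_apply]
      rfl
    have e1 : ∑ x : Fin (d k) × Fin (d k), signal ρ g k (e.1, x.1) (e.2, x.2) *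
        conj (signal ρ g' k (e.1, x.1) (e.2, x.2)) = Matrix.trace ((A * Bᴴ) * (A' * B'ᴴ)ᴴ) := by
      rw [← htr]
      refine Finset.sum_congr rfl fun x _ => ?_
      simp only [signal, Matrix.of_apply]
      rw [hmul, hmul, hinv, hinv]
    have e2 : ∑ x : Fin (d k) × Fin (d k),
        conj ((ρ k ((g e.1)⁻¹ * g' e.1) : Matrix (Fin (d k)) (Fin (d k)) ℂ) x.1 x.2) *
          (ρ k ((g e.2)⁻¹ * g' e.2) : Matrix (Fin (d k)) (Fin (d k)) ℂ) x.1 x.2 =
        Matrix.trace ((Bᴴ * B') * (Aᴴ * A')ᴴ) := by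
      rw [← htr]
      refine Finset.sum_congr rfl fun x _ => ?_
      rw [hmul, hmul, hinv, hinv, mul_comm]
    rw [e1, e2]
    simp only [Matrix.conjTranspose_mul, Matrix.conjTranspose_conjTranspose]
    rw [Matrix.mul_assoc, Matrix.trace_mul_comm A]
    simp only [Matrix.mul_assoc]
  rw [h3]
  have h4 : ∀ x : Fin (d k) × Fin (d k),
      conj (vv ρ (⟨k, x⟩ : VIdx d) ((g e.1)⁻¹ * g' e.1)) *
        vv ρ (⟨k, x⟩ : VIdx d) ((g e.2)⁻¹ * g' e.2) =
      ((d k : ℝ) : ℂ) * (conj ((ρ k ((g e.1)⁻¹ * g' e.1) : Matrix (Fin (d k)) (Fin (d k)) ℂ) x.1 x.2) *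
          (ρ k ((g e.2)⁻¹ * g' e.2) : Matrix (Fin (d k)) (Fin (d k)) ℂ) x.1 x.2) := by
    intro x
    have h5 : ((Real.sqrt (d k) : ℝ) : ℂ) * ((Real.sqrt (d k) : ℝ) : ℂ) = ((d k : ℝ) : ℂ) := by
      rw [← Complex.ofReal_mul, Real.mul_self_sqrt (Nat.cast_nonneg _)]
    simp only [vv, map_mul, Complex.conj_ofReal]
    rw [← h5]
    ring
  simp_rw [h4]
  rw [← Finset.mul_sum, Complex.re_ofReal_mul]
  ring

/-- the inner product of two restricted shifts -/
theorem sE_inner (ρ : ∀ k : Fin L, G →* Matrix.unitaryGroup (Fin (d k)) ℂ) (lam : ℝ)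
    (E E' : Finset (Fin n × Fin n)) (g g' : Fin n → G) :
    ∑ c, sE ρ lam E g c * sE ρ lam E' g' c =
      ∑ e ∈ E ∩ E', lam ^ 2 / (2 * n) * ∑ l : VIdx d × Bool,
        wl ρ l ((g⁻¹ * g') e.1) * wl ρ l ((g⁻¹ * g') e.2) := by
  rw [sum_coord]
  have h1 : ∀ e : Fin n × Fin n, ∑ t : VIdx d,
      (sE ρ lam E g ⟨t.1, (e.1, t.2.1), (e.2, t.2.2), true⟩ *
        sE ρ lam E' g' ⟨t.1, (e.1, t.2.1), (e.2, t.2.2), true⟩ +
      sE ρ lam E g ⟨t.1, (e.1, t.2.1), (e.2, t.2.2), false⟩ *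
        sE ρ lam E' g' ⟨t.1, (e.1, t.2.1), (e.2, t.2.2), false⟩) =
      if e ∈ E ∩ E' then lam ^ 2 / (2 * n) * ∑ l : VIdx d × Bool,
        wl ρ l ((g⁻¹ * g') e.1) * wl ρ l ((g⁻¹ * g') e.2) else 0 := by
    intro e
    by_cases h : e ∈ E
    · by_cases h' : e ∈ E'
      · rw [if_pos (Finset.mem_inter.2 ⟨h, h'⟩)]
        have h2 := block_inner ρ lam g g' e
        simp only [Pi.mul_apply, Pi.inv_apply]
        rw [← h2]
        refine Finset.sum_congr rfl fun t _ => ?_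
        simp only [sE, pr, Prod.mk.eta, h, h', if_true]
      · rw [if_neg fun h3 => h' (Finset.mem_inter.1 h3).2]
        refine Finset.sum_eq_zero fun t _ => ?_
        simp only [sE, pr, Prod.mk.eta, h', if_false, mul_zero, add_zero]
    · rw [if_neg fun h3 => h (Finset.mem_inter.1 h3).1]
      refine Finset.sum_eq_zero fun t _ => ?_
      simp only [sE, pr, Prod.mk.eta, h, if_false, zero_mul, add_zero]
  simp_rw [h1]
  rw [Finset.sum_ite_mem, Finset.univ_inter]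

theorem sE_univ (ρ : ∀ k : Fin L, G →* Matrix.unitaryGroup (Fin (d k)) ℂ) (lam : ℝ)
    (g : Fin n → G) : sE ρ lam Finset.univ g = shift ρ lam g := by
  funext c
  simp [sE]

theorem sE_empty (ρ : ∀ k : Fin L, G →* Matrix.unitaryGroup (Fin (d k)) ℂ) (lam : ℝ)
    (g : Fin n → G) : sE ρ lam ∅ g = 0 := by
  funext c
  simp [sE]

theorem sE_inter (ρ : ∀ k : Fin L, G →* Matrix.unitaryGroup (Fin (d k)) ℂ) (lam : ℝ)
    (E S : Finset (Fin n × Fin n)) (g : Fin n → G) (c : Coord n d) (hc : pr c ∈ S) :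
    sE ρ lam E g c = sE ρ lam (E ∩ S) g c := by
  unfold sE
  by_cases h : pr c ∈ E
  · rw [if_pos h, if_pos (Finset.mem_inter.2 ⟨h, hc⟩)]
  · rw [if_neg h, if_neg fun h2 => h (Finset.mem_inter.1 h2).1]

theorem abs_sE_le (ρ : ∀ k : Fin L, G →* Matrix.unitaryGroup (Fin (d k)) ℂ) (lam : ℝ)
    (E : Finset (Fin n × Fin n)) (g : Fin n → G) (c : Coord n d) :
    |sE ρ lam E g c| ≤ ∑ k, |lam * Real.sqrt (d k / n)| := by
  unfold sE
  split_ifs
  · exact abs_shift_le ρ lam g c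
  · rw [abs_zero]
    exact Finset.sum_nonneg fun _ _ => abs_nonneg _

theorem measurable_sE [TopologicalSpace G] [MeasurableSpace G] [BorelSpace G]
    (ρ : ∀ k : Fin L, G →* Matrix.unitaryGroup (Fin (d k)) ℂ)
    (hρ : ∀ k, Continuous fun g => (ρ k g : Matrix (Fin (d k)) (Fin (d k)) ℂ)) (lam : ℝ)
    (E : Finset (Fin n × Fin n)) : Measurable fun g : Fin n → G => sE ρ lam E g := by
  refine measurable_pi_lambda _ fun c => ?_
  unfold sE
  by_cases h : pr c ∈ E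
  · simp only [h, if_true]
    exact measurable_shift ρ hρ lam c
  · simp only [h, if_false]
    exact measurable_const

end Pool.Agent.H47.LV
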