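import Mathlib
import Pool.Agent.H47.LV.Comb
import Pool.Agent.H47.LV.Edge
import Pool.Agent.H70.SS.Fin

/-!
# The inequality for sums of functions of few rows, in the coordinates of the noise
-/

set_option autoImplicit false

open MeasureTheory ProbabilityTheory
open scoped BigOperators RealInnerProductSpace

namespace Pool.Agent.H47.LV

open Pool.Agent.Results.MP_634cec_lc.LinearDegree
open Pool.Agent.H70.SS (gam)

section Fixed

variable {G : Type} [Group G] [TopologicalSpace G] [IsTopologicalGroup G] [CompactSpace G]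
  [MeasurableSpace G] [BorelSpace G] (μ : Measure G) [μ.IsHaarMeasure] [IsProbabilityMeasure μ]
  {L n : ℕ} {d : Fin L → ℕ}

theorem integral_sE (ρ : ∀ k : Fin L, G →* Matrix.unitaryGroup (Fin (d k)) ℂ) (lam : ℝ)
    (E E' : Finset (Fin n × Fin n)) :
    ∫ g, ∫ g', Real.exp (∑ c, sE ρ lam E g c * sE ρ lam E' g' c)
      ∂(Measure.pi fun _ : Fin n => μ) ∂(Measure.pi fun _ : Fin n => μ) =
      ME μ (wl ρ) (lam / Real.sqrt n) (E ∩ E') := by
  have h1 : ∀ g g' : Fin n → G, ∑ c, sE ρ lam E g c * sE ρ lam E' g' c =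
      ∑ e ∈ E ∩ E', xe (wl ρ) (lam / Real.sqrt n) (g⁻¹ * g') e := by
    intro g g'
    rw [sE_inner]
    refine Finset.sum_congr rfl fun e _ => ?_
    unfold xe
    congr 1
    rw [div_pow, Real.sq_sqrt (Nat.cast_nonneg _), div_div, mul_comm (2 : ℝ)]
  simp_rw [h1]
  have h : ∀ g : Fin n → G, ∫ g' : Fin n → G,
      Real.exp (∑ e ∈ E ∩ E', xe (wl ρ) (lam / Real.sqrt n) (g⁻¹ * g') e)
      ∂(Measure.pi fun _ : Fin n => μ) = ME μ (wl ρ) (lam / Real.sqrt n) (E ∩ E') := by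
    intro g
    exact integral_mul_left_eq_self (μ := Measure.pi fun _ : Fin n => μ)
      (fun h : Fin n → G =>
        Real.exp (∑ e ∈ E ∩ E', xe (wl ρ) (lam / Real.sqrt n) h e)) g⁻¹
  simp_rw [h]
  simp

/-- the vectors of the likelihood ratios -/
noncomputable def Ge (ρ : ∀ k : Fin L, G →* Matrix.unitaryGroup (Fin (d k)) ℂ)
    (hρ : ∀ k, Continuous fun g => (ρ k g : Matrix (Fin (d k)) (Fin (d k)) ℂ)) (lam : ℝ)
    (E : Finset (Fin n × Fin n)) : Lp ℝ 2 (gam (Coord n d)) :=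
  (memLp_Phi (P := Measure.pi fun _ : Fin n => μ) (measurable_sE ρ hρ lam E)
    (abs_sE_le ρ lam E)).toLp (Phi (Measure.pi fun _ : Fin n => μ) (sE ρ lam E))

theorem Ge_inner (ρ : ∀ k : Fin L, G →* Matrix.unitaryGroup (Fin (d k)) ℂ)
    (hρ : ∀ k, Continuous fun g => (ρ k g : Matrix (Fin (d k)) (Fin (d k)) ℂ)) (lam : ℝ)
    (E E' : Finset (Fin n × Fin n)) :
    ⟪Ge μ ρ hρ lam E, Ge μ ρ hρ lam E'⟫ = ME μ (wl ρ) (lam / Real.sqrt n) (E ∩ E') := by
  unfold Ge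
  rw [inner_toLp, inner_Phi (measurable_sE ρ hρ lam E) (measurable_sE ρ hρ lam E')
    (abs_sE_le ρ lam E) (abs_sE_le ρ lam E')]
  exact integral_sE μ ρ lam E E'

theorem mob_ME_nonneg (ρ : ∀ k : Fin L, G →* Matrix.unitaryGroup (Fin (d k)) ℂ)
    (hρ : ∀ k, Continuous fun g => (ρ k g : Matrix (Fin (d k)) (Fin (d k)) ℂ)) (lam : ℝ)
    (E : Finset (Fin n × Fin n)) : 0 ≤ mob (ME μ (wl ρ) (lam / Real.sqrt n)) E :=
  mob_nonneg (Ge_inner μ ρ hρ lam) E

open Classical in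
/-- the inequality with the sum of the Möbius transform -/
theorem cov_mob (ρ : ∀ k : Fin L, G →* Matrix.unitaryGroup (Fin (d k)) ℂ)
    (hρ : ∀ k, Continuous fun g => (ρ k g : Matrix (Fin (d k)) (Fin (d k)) ℂ)) (lam : ℝ)
    (D : ℕ) (F : Finset (Fin n) → (Coord n d → ℝ) → ℝ) (hF : ∀ K, Measurable (F K))
    (hloc : ∀ K z z', (∀ c, pr c ∈ EK K → z c = z' c) → F K z = F K z')
    (hF2 : ∀ K, MemLp (F K) 2 (gam (Coord n d))) :
    ((∫ g, ∫ z, ∑ K with K.card ≤ D, F K (shift ρ lam g + z) ∂(gam (Coord n d))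
        ∂(Measure.pi fun _ : Fin n => μ)) -
          ∫ z, ∑ K with K.card ≤ D, F K z ∂(gam (Coord n d))) ^ 2 ≤
      ((∫ z, (∑ K with K.card ≤ D, F K z) ^ 2 ∂(gam (Coord n d))) -
        (∫ z, ∑ K with K.card ≤ D, F K z ∂(gam (Coord n d))) ^ 2) *
      ∑ V ∈ (Finset.univ : Finset (Finset (Fin n × Fin n))).filter (fun V => V ≠ ∅ ∧ Cov D V),
        mob (ME μ (wl ρ) (lam / Real.sqrt n)) V := by
  set ν := Measure.pi fun _ : Fin n => μ with hν
  have hsm : ∀ E, Measurable fun g : Fin n → G => sE ρ lam E g := fun E =>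
    measurable_sE ρ hρ lam E
  have hsb : ∀ E (g : Fin n → G) (c : Coord n d), |sE ρ lam E g c| ≤
      ∑ k, |lam * Real.sqrt (d k / n)| := fun E g c => abs_sE_le ρ lam E g c
  have hPhi : ∀ E, MemLp (Phi ν (sE ρ lam E)) 2 (gam (Coord n d)) := fun E =>
    memLp_Phi (hsm E) (hsb E)
  have hGe : ∀ E, Ge μ ρ hρ lam E = (hPhi E).toLp (Phi ν (sE ρ lam E)) := fun E => rfl
  set s := (Finset.univ : Finset (Finset (Fin n))).filter (fun K => K.card ≤ D) with hs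
  set Fe : Finset (Fin n) → Lp ℝ 2 (gam (Coord n d)) := fun K => (hF2 K).toLp (F K) with hFe
  have hf0 : MemLp (fun z => ∑ K ∈ s, F K z) 2 (gam (Coord n d)) :=
    memLp_finsetSum _ fun K _ => hF2 K
  have hf0m : Measurable fun z => ∑ K ∈ s, F K z := Finset.measurable_sum _ fun K _ => hF K
  have hsum : ∑ K ∈ s, Fe K = hf0.toLp (fun z => ∑ K ∈ s, F K z) := by
    apply Lp.ext
    refine (Lp.coeFn_fun_finsetSum s Fe).trans ?_
    have h1 : ∀ᵐ z ∂(gam (Coord n d)), ∀ K ∈ s,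
        (Fe K : (Coord n d → ℝ) → ℝ) z = F K z := by
      rw [Filter.eventually_all_finset]
      intro K _
      exact (hF2 K).coeFn_toLp
    filter_upwards [h1, hf0.coeFn_toLp] with z h2 h3
    rw [h3]
    exact Finset.sum_congr rfl fun K hK => h2 K hK
  have hFGe : ∀ K E, ⟪Fe K, Ge μ ρ hρ lam E⟫ =
      ∫ g, ∫ z, F K (sE ρ lam E g + z) ∂(gam (Coord n d)) ∂ν := by
    intro K E
    rw [hGe, hFe, inner_toLp (hF2 K) (hPhi E), inner_F (hsm E) (hsb E) (hF K) (hF2 K)]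
  have hFG : ∀ K ∈ s, ∀ E, ⟪Fe K, Ge μ ρ hρ lam E⟫ = ⟪Fe K, Ge μ ρ hρ lam (E ∩ EK K)⟫ := by
    intro K _ E
    rw [hFGe, hFGe]
    refine integral_congr_ae (ae_of_all _ fun g => ?_)
    refine integral_congr_ae (ae_of_all _ fun z => ?_)
    refine hloc K _ _ fun c hc => ?_
    rw [Pi.add_apply, Pi.add_apply, sE_inter ρ lam E (EK K) g c hc]
  have key := hilb (Ge_inner μ ρ hρ lam) (ME_empty μ (wl ρ) _) (Cov D)
    (fun S V hVS => Cov.mono hVS) s Fe EK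
    (fun K hK => ⟨K, (Finset.mem_filter.1 hK).2, Finset.Subset.refl _⟩) hFG
  have e1 : ⟪∑ K ∈ s, Fe K, Ge μ ρ hρ lam Finset.univ⟫ =
      ∫ g, ∫ z, ∑ K ∈ s, F K (shift ρ lam g + z) ∂(gam (Coord n d)) ∂ν := by
    rw [hsum, hGe, inner_toLp hf0 (hPhi _), inner_F (hsm _) (hsb _) hf0m hf0]
    simp_rw [sE_univ]
  have e2 : ⟪∑ K ∈ s, Fe K, Ge μ ρ hρ lam ∅⟫ = ∫ z, ∑ K ∈ s, F K z ∂(gam (Coord n d)) := by
    rw [hsum, hGe, inner_toLp hf0 (hPhi _), inner_F (hsm _) (hsb _) hf0m hf0]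
    simp_rw [sE_empty, zero_add]
    simp
  have e3 : ⟪∑ K ∈ s, Fe K, ∑ K ∈ s, Fe K⟫ =
      ∫ z, (∑ K ∈ s, F K z) ^ 2 ∂(gam (Coord n d)) := by
    rw [hsum, inner_toLp hf0 hf0]
    exact integral_congr_ae (ae_of_all _ fun z => (sq _).symm)
  rw [e1, e2, e3] at key
  exact key

end Fixed

/-- **The inequality for sums of functions of few rows.** -/
theorem row_ineq (L : ℕ) (d : Fin L → ℕ) (lam : ℝ) (h0 : 0 ≤ lam) (h1 : lam < 1) :
    ∃ c C : ℝ, 0 < c ∧ 0 < C ∧ ∀ (G : Type) [Group G] [TopologicalSpace G] [IsTopologicalGroup G]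
      [CompactSpace G] [MeasurableSpace G] [BorelSpace G] (μ : Measure G) [μ.IsHaarMeasure]
      [IsProbabilityMeasure μ] (ρ : ∀ k : Fin L, G →* Matrix.unitaryGroup (Fin (d k)) ℂ),
      Admissible ρ → ∀ n D : ℕ, (D : ℝ) ≤ c * n →
      ∀ F : Finset (Fin n) → (Coord n d → ℝ) → ℝ, (∀ K, Measurable (F K)) →
      (∀ K z z', (∀ c, pr c ∈ EK K → z c = z' c) → F K z = F K z') →
      (∀ K, MemLp (F K) 2 (gam (Coord n d))) →
      ((∫ g, ∫ z, ∑ K with K.card ≤ D, F K (shift ρ lam g + z) ∂(gam (Coord n d))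
          ∂(Measure.pi fun _ : Fin n => μ)) -
            ∫ z, ∑ K with K.card ≤ D, F K z ∂(gam (Coord n d))) ^ 2 ≤
        C * ((∫ z, (∑ K with K.card ≤ D, F K z) ^ 2 ∂(gam (Coord n d))) -
          (∫ z, ∑ K with K.card ≤ D, F K z ∂(gam (Coord n d))) ^ 2) := by
  classical
  obtain ⟨c, C, hc, hC, key⟩ := sum_cov_le (ι := VIdx d × Bool) (lam := lam)
    (b := Real.sqrt 2 * ∑ k, Real.sqrt (d k)) h0 h1
    (mul_nonneg (Real.sqrt_nonneg _) (Finset.sum_nonneg fun _ _ => Real.sqrt_nonneg _))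
  refine ⟨c, C, hc, hC, ?_⟩
  intro G _ _ _ _ _ _ μ _ _ ρ hρ n D hD F hF hloc hF2
  have h2 := key G μ (wl ρ) (measurable_wl ρ hρ.1) (abs_wl_le ρ) (wl_mean μ ρ hρ)
    (wl_cov μ ρ hρ) n D hD (mob_ME_nonneg μ ρ hρ.1 lam)
    ((Finset.univ : Finset (Finset (Fin n × Fin n))).filter (fun V => V ≠ ∅ ∧ Cov D V))
    (fun E hE => (Finset.mem_filter.1 hE).2)
  refine (cov_mob μ ρ hρ.1 lam D F hF hloc hF2).trans ?_
  rw [mul_comm C]
  refine mul_le_mul_of_nonneg_left h2 ?_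
  -- the variance is nonnegative
  have hf0 : MemLp (fun z => ∑ K with K.card ≤ D, F K z) 2 (gam (Coord n d)) :=
    memLp_finsetSum _ fun S _ => hF2 S
  have h3 := variance_eq_sub hf0
  have h4 := variance_nonneg (fun z => ∑ K with K.card ≤ D, F K z) (gam (Coord n d))
  rw [h3] at h4
  simpa using h4

end Pool.Agent.H47.LV
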